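import Mathlib

/-!
# MP_adb5ad_gt, package Hk: the filters of vertical approach to a boundary point
-/

set_option autoImplicit false

open Filter Topology Set

noncomputable section

namespace Pool.Agent.Lib.MP_adb5ad_gt.Hk

/-- A filter of heights: it tends to `0+` and is invariant under rescaling by bounded factors. -/
structure Hts (T : Filter ℝ) : Prop where
  ne : T.NeBot
  le : T ≤ 𝓝[>] 0
  sc : ∀ U ∈ T, ∀ c C : ℝ, 0 < c → c ≤ C → {t : ℝ | ∀ r ∈ Icc c C, r * t ∈ U} ∈ T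

/-- `z → iy` with `re z` along `T` and `(im z - y) / re z → 0`. -/
def Lf (T : Filter ℝ) (y : ℝ) : Filter ℂ :=
  comap Complex.re T ⊓ comap (fun z : ℂ => (z.im - y) / z.re) (𝓝 0)

variable {T : Filter ℝ}

theorem tendsto_Lf {A : Type} {F : Filter A} {g : A → ℂ} {y : ℝ} :
    Tendsto g F (Lf T y) ↔ Tendsto (fun a => (g a).re) F T ∧
      Tendsto (fun a => ((g a).im - y) / (g a).re) F (𝓝 0) := by
  unfold Lf
  rw [tendsto_inf, tendsto_comap_iff, tendsto_comap_iff]
  rfl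

theorem re_LfT (T : Filter ℝ) (y : ℝ) : Tendsto Complex.re (Lf T y) T :=
  (tendsto_Lf.1 (tendsto_id (α := ℂ) (x := Lf T y))).1

theorem ratio_Lf (T : Filter ℝ) (y : ℝ) :
    Tendsto (fun z : ℂ => (z.im - y) / z.re) (Lf T y) (𝓝 0) :=
  (tendsto_Lf.1 (tendsto_id (α := ℂ) (x := Lf T y))).2

theorem re_Lf (hT : Hts T) (y : ℝ) : Tendsto Complex.re (Lf T y) (𝓝[>] 0) :=
  (re_LfT T y).mono_right hT.le

theorem re_Lf' (hT : Hts T) (y : ℝ) : Tendsto Complex.re (Lf T y) (𝓝 0) :=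
  (re_Lf hT y).mono_right nhdsWithin_le_nhds

theorem re_pos_Lf (hT : Hts T) (y : ℝ) : ∀ᶠ z in Lf T y, 0 < z.re :=
  (re_Lf hT y).eventually self_mem_nhdsWithin

theorem im_Lf (hT : Hts T) (y : ℝ) : Tendsto Complex.im (Lf T y) (𝓝 y) := by
  have h1 : Tendsto (fun z : ℂ => (z.im - y) / z.re * z.re + y) (Lf T y) (𝓝 (0 * 0 + y)) :=
    ((ratio_Lf T y).mul (re_Lf' hT y)).add_const y
  rw [mul_zero, zero_add] at h1
  refine h1.congr' ?_
  filter_upwards [re_pos_Lf hT y] with z hz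
  rw [div_mul_cancel₀ _ hz.ne']
  ring

theorem id_Lf (hT : Hts T) (y : ℝ) :
    Tendsto (fun z : ℂ => z) (Lf T y) (𝓝 ((y : ℂ) * Complex.I)) := by
  have h1 : Tendsto (fun z : ℂ => (z.re : ℂ) + (z.im : ℂ) * Complex.I) (Lf T y)
      (𝓝 ((0 : ℝ) + (y : ℂ) * Complex.I)) := by
    refine Tendsto.add ?_ (Tendsto.mul_const _ ?_)
    · exact (Complex.continuous_ofReal.tendsto 0).comp (re_Lf' hT y)
    · exact (Complex.continuous_ofReal.tendsto y).comp (im_Lf hT y)
  simpa using h1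

theorem neBot_Lf (hT : Hts T) (y : ℝ) : (Lf T y).NeBot := by
  have := hT.ne
  have h : Tendsto (fun t : ℝ => (t : ℂ) + (y : ℂ) * Complex.I) T (Lf T y) := by
    rw [tendsto_Lf]
    constructor
    · have h : Tendsto (fun a : ℝ => a) T T := tendsto_id
      simpa using h
    · simp
  exact h.neBot

theorem shift_Lf (T : Filter ℝ) (y x : ℝ) :
    Tendsto (fun z : ℂ => z - (x : ℂ) * Complex.I) (Lf T (y + x)) (Lf T y) := by
  rw [tendsto_Lf]
  constructor
  · simpa using re_LfT T (y + x)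
  · have h := ratio_Lf T (y + x)
    refine h.congr fun z => ?_
    simp
    ring

theorem inv_re' (z : ℂ) : (1 / z).re = z.re / (z.re ^ 2 + z.im ^ 2) := by
  rw [one_div, Complex.inv_re, Complex.normSq_apply]
  ring_nf

theorem inv_im' (z : ℂ) : (1 / z).im = -z.im / (z.re ^ 2 + z.im ^ 2) := by
  rw [one_div, Complex.inv_im, Complex.normSq_apply]
  ring_nf

theorem sq_Lf (hT : Hts T) (y : ℝ) :
    Tendsto (fun z : ℂ => z.re ^ 2 + z.im ^ 2) (Lf T y) (𝓝 (y ^ 2)) := by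
  have := ((re_Lf' hT y).pow 2).add ((im_Lf hT y).pow 2)
  simpa using this

theorem inv_Lf (hT : Hts T) {y : ℝ} (hy : y ≠ 0) :
    Tendsto (fun z : ℂ => 1 / z) (Lf T y) (Lf T (-(1 / y))) := by
  rw [tendsto_Lf]
  have hy2 : 0 < y ^ 2 := by positivity
  constructor
  · intro U hU
    have hV := hT.sc U hU (1 / (2 * y ^ 2)) (2 / y ^ 2) (by positivity) (by
      rw [div_le_div_iff₀ (by positivity) (by positivity)]
      nlinarith)
    have h1 := (re_LfT T y).eventually hV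
    have h2 := (sq_Lf hT y).eventually (Ioo_mem_nhds (a := y ^ 2 / 2) (b := 2 * y ^ 2)
      (by linarith) (by linarith))
    rw [mem_map]
    filter_upwards [h1, h2, re_pos_Lf hT y] with z hz1 hz2 hz
    have h3 : 0 < z.re ^ 2 + z.im ^ 2 := by positivity
    have h4 := hz1 (1 / (z.re ^ 2 + z.im ^ 2)) ⟨by
      rw [div_le_div_iff₀ (by positivity) h3]
      linarith [hz2.2], by
      rw [div_le_div_iff₀ h3 (by positivity)]
      linarith [hz2.1]⟩
    have e : (1 / z).re = 1 / (z.re ^ 2 + z.im ^ 2) * z.re := by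
      rw [inv_re']
      ring
    simp only [mem_preimage, e]
    exact h4
  · have h1 : Tendsto (fun z : ℂ => z.im * ((z.im - y) / z.re) / y + z.re / y) (Lf T y)
        (𝓝 (y * 0 / y + 0 / y)) :=
      (((im_Lf hT y).mul (ratio_Lf T y)).div_const y).add ((re_Lf' hT y).div_const y)
    rw [mul_zero, zero_div, add_zero] at h1
    refine h1.congr' ?_
    filter_upwards [re_pos_Lf hT y] with z hz
    rw [inv_re', inv_im']
    have h2 : 0 < z.re ^ 2 + z.im ^ 2 := by positivity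
    field_simp
    ring

theorem inv_Lf_zero (hT : Hts T) : Tendsto (fun z : ℂ => (1 / z).re) (Lf T 0) atTop := by
  have h1 : Tendsto (fun z : ℂ => z.re⁻¹) (Lf T 0) atTop :=
    tendsto_inv_nhdsGT_zero.comp (re_Lf hT 0)
  have h2 : Tendsto (fun z : ℂ => 1 / (1 + ((z.im - 0) / z.re) ^ 2)) (Lf T 0) (𝓝 1) := by
    have h : Tendsto (fun z : ℂ => 1 / (1 + ((z.im - 0) / z.re) ^ 2)) (Lf T 0)
        (𝓝 (1 / (1 + 0 ^ 2))) := (tendsto_const_nhds (x := (1 : ℝ))).div
      ((tendsto_const_nhds (x := (1 : ℝ))).add ((ratio_Lf T 0).pow 2)) (by norm_num)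
    have h' : (1 : ℝ) / (1 + 0 ^ 2) = 1 := by norm_num
    rw [h'] at h
    exact h
  refine (h1.atTop_mul_pos one_pos h2).congr' ?_
  filter_upwards [re_pos_Lf hT 0] with z hz
  rw [inv_re']
  have h3 : 0 < z.re ^ 2 + z.im ^ 2 := by positivity
  field_simp
  ring

/-- The filter of the heights comparable with the members of a sequence. -/
def seqF (t : ℕ → ℝ) : Filter ℝ where
  sets := {U | ∀ c C : ℝ, 0 < c → c ≤ C → ∀ᶠ i in atTop, Icc (c * t i) (C * t i) ⊆ U}
  univ_sets := fun _ _ _ _ => Eventually.of_forall fun _ => subset_univ _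
  sets_of_superset := fun hU hUV c C hc hC => (hU c C hc hC).mono fun _ hi => hi.trans hUV
  inter_sets := fun hU hV c C hc hC => ((hU c C hc hC).and (hV c C hc hC)).mono
    fun _ hi => subset_inter hi.1 hi.2

theorem mem_seqF {t : ℕ → ℝ} {U : Set ℝ} : U ∈ seqF t ↔
    ∀ c C : ℝ, 0 < c → c ≤ C → ∀ᶠ i in atTop, Icc (c * t i) (C * t i) ⊆ U := Iff.rfl

theorem hts_seqF {t : ℕ → ℝ} (hpos : ∀ i, 0 < t i) (h0 : Tendsto t atTop (𝓝 0)) :
    Hts (seqF t) := by
  refine ⟨⟨fun h => ?_⟩, ?_, ?_⟩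
  · have h1 : (∅ : Set ℝ) ∈ seqF t := by rw [h]; exact mem_bot
    obtain ⟨i, hi⟩ := (mem_seqF.1 h1 1 1 one_pos le_rfl).exists
    exact (hi (show 1 * t i ∈ Icc (1 * t i) (1 * t i) from ⟨le_rfl, le_rfl⟩)).elim
  · intro U hU
    rw [mem_nhdsGT_iff_exists_Ioo_subset] at hU
    obtain ⟨ε, hε, hU⟩ := hU
    rw [mem_seqF]
    intro c C hc hC
    have h1 : Tendsto (fun i => C * t i) atTop (𝓝 (C * 0)) := h0.const_mul C
    rw [mul_zero] at h1
    filter_upwards [h1.eventually (gt_mem_nhds hε)] with i hi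
    intro s hs
    exact hU ⟨lt_of_lt_of_le (mul_pos hc (hpos i)) hs.1, lt_of_le_of_lt hs.2 hi⟩
  · intro U hU c C hc hC
    rw [mem_seqF] at hU ⊢
    intro c' C' hc' hC'
    have h1 := hU (c * c') (C * C') (mul_pos hc hc') (mul_le_mul hC hC' hc'.le
      (hc.le.trans hC))
    filter_upwards [h1] with i hi
    intro s hs r hr
    have hs0 : 0 < s := lt_of_lt_of_le (mul_pos hc' (hpos i)) hs.1
    apply hi
    constructor
    · rw [mul_assoc]
      exact mul_le_mul hr.1 hs.1 (mul_pos hc' (hpos i)).le (hc.le.trans hr.1)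
    · rw [mul_assoc]
      exact mul_le_mul hr.2 hs.2 hs0.le (hc.le.trans hC)

end Pool.Agent.Lib.MP_adb5ad_gt.Hk
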