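import Pool.Agent.Lib.MP_adb5ad_gt.LTBasic
import Pool.Agent.Lib.MP_adb5ad_gt.Hk.Filt

/-!
# MP_adb5ad_gt, package Hk: approximate asymptotic values of a theta pair at boundary points
-/

set_option autoImplicit false

open MeasureTheory Filter Topology Set

noncomputable section

namespace Pool.Agent.Lib.MP_adb5ad_gt.Hk

open Pool.Agent.Lib.MP_adb5ad_gt

/-- `(re z)^k LT μ z` is up to `e` close to `c` as `z → iy`. -/
def As (T : Filter ℝ) (k : ℝ) (μ : Measure ℝ) (y : ℝ) (c : ℂ) (e : ℝ) : Prop :=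
  ∀ ε : ℝ, 0 < ε → ∀ᶠ z in Lf T y, ‖((z.re ^ k : ℝ) : ℂ) * LT μ z - c‖ ≤ e + ε

variable {T : Filter ℝ} {k : ℝ} {μ ν : Measure ℝ}

theorem As.unique (hT : Hts T) {y : ℝ} {c c' : ℂ} {e e' : ℝ} (h : As T k μ y c e)
    (h' : As T k μ y c' e') : ‖c - c'‖ ≤ e + e' := by
  have := neBot_Lf hT y
  apply le_of_forall_pos_le_add
  intro ε hε
  obtain ⟨z, hz1, hz2⟩ := ((h (ε / 2) (by positivity)).and (h' (ε / 2) (by positivity))).exists
  have h1 : c - c' = (((z.re ^ k : ℝ) : ℂ) * LT μ z - c') - (((z.re ^ k : ℝ) : ℂ) * LT μ z - c) :=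
    by ring
  rw [h1]
  refine (norm_sub_le _ _).trans ?_
  linarith

theorem norm_LT_le' (μ : Measure ℝ) (z : ℂ) : ‖LT μ z‖ ≤ LTr μ z.re := by
  have h := norm_LT_le μ z.re z.im
  rwa [Complex.re_add_im] at h

/-- `t^k LTr μ t → 1` for `t → 0+`. -/
theorem tendsto_LTr (h : ThetaPair k μ ν) (hν : Tendsto (LTr ν) atTop (𝓝 1)) :
    Tendsto (fun t : ℝ => t ^ k * LTr μ t) (𝓝[>] 0) (𝓝 1) := by
  have h0 : Tendsto (fun t : ℝ => 1 / t) (𝓝[>] 0) atTop := by
    simp only [one_div]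
    exact tendsto_inv_nhdsGT_zero
  have h1 : Tendsto (fun t : ℝ => LTr ν (1 / t)) (𝓝[>] 0) (𝓝 1) := hν.comp h0
  refine h1.congr' ?_
  filter_upwards [self_mem_nhdsWithin] with t ht
  rw [h.LTr_fe ht, ← mul_assoc, ← Real.rpow_add ht, add_neg_cancel, Real.rpow_zero, one_mul]

/-- Asymptotic values have absolute value at most one. -/
theorem As.norm_le (hT : Hts T) (h : ThetaPair k μ ν) (hν : Tendsto (LTr ν) atTop (𝓝 1)) {y : ℝ}
    {c : ℂ} {e : ℝ} (hc : As T k μ y c e) : ‖c‖ ≤ 1 + e := by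
  have := neBot_Lf hT y
  have h1 : Tendsto (fun z : ℂ => z.re ^ k * LTr μ z.re) (Lf T y) (𝓝 1) :=
    (tendsto_LTr h hν).comp (re_Lf hT y)
  apply le_of_forall_pos_le_add
  intro ε hε
  obtain ⟨z, hz1, hz2, hz⟩ := ((hc (ε / 2) (by positivity)).and
    ((h1.eventually (gt_mem_nhds (show (1 : ℝ) < 1 + ε / 2 by linarith))).and
      (re_pos_Lf hT y))).exists
  have h2 : c = ((z.re ^ k : ℝ) : ℂ) * LT μ z - (((z.re ^ k : ℝ) : ℂ) * LT μ z - c) := by ring
  rw [h2]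
  refine (norm_sub_le _ _).trans ?_
  have h3 : ‖((z.re ^ k : ℝ) : ℂ) * LT μ z‖ ≤ z.re ^ k * LTr μ z.re := by
    rw [norm_mul, Complex.norm_real, Real.norm_of_nonneg (Real.rpow_nonneg hz.le k)]
    exact mul_le_mul_of_nonneg_left (norm_LT_le' μ z) (Real.rpow_nonneg hz.le k)
  linarith

theorem as_of_tendsto {y : ℝ} {c : ℂ}
    (h : Tendsto (fun z : ℂ => ((z.re ^ k : ℝ) : ℂ) * LT μ z) (Lf T y) (𝓝 c)) :
    As T k μ y c 0 := by
  intro ε hε
  rw [Metric.tendsto_nhds] at h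
  filter_upwards [h ε hε] with z hz
  rw [dist_eq_norm] at hz
  linarith

/-- The value at `0`. -/
theorem as_zero (hT : Hts T) (h : ThetaPair k μ ν)
    (hν : Tendsto (LT ν) (comap Complex.re atTop) (𝓝 1)) : As T k μ 0 1 0 := by
  apply as_of_tendsto
  have h1 : Tendsto (fun z : ℂ => LT ν (1 / z)) (Lf T 0) (𝓝 1) := by
    refine hν.comp ?_
    rw [tendsto_comap_iff]
    exact inv_Lf_zero hT
  have h2 : Tendsto (fun z : ℂ => (1 + ((z.im - 0) / z.re : ℝ) * Complex.I) ^ (-(k : ℂ)))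
      (Lf T 0) (𝓝 ((1 + ((0 : ℝ) : ℂ) * Complex.I) ^ (-(k : ℂ)))) := by
    have h3 : Tendsto (fun z : ℂ => (1 : ℂ) + ((z.im - 0) / z.re : ℝ) * Complex.I) (Lf T 0)
        (𝓝 (1 + ((0 : ℝ) : ℂ) * Complex.I)) :=
      (((Complex.continuous_ofReal.tendsto 0).comp (ratio_Lf T 0)).mul_const _).const_add 1
    have h4 : ContinuousAt (fun w : ℂ => w ^ (-(k : ℂ))) (1 + ((0 : ℝ) : ℂ) * Complex.I) := by
      apply continuousAt_cpow_const
      simp
    exact h4.tendsto.comp h3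
  have h5 : ((1 : ℂ) + ((0 : ℝ) : ℂ) * Complex.I) ^ (-(k : ℂ)) = 1 := by simp
  rw [h5] at h2
  have h6 := h2.mul h1
  rw [one_mul] at h6
  refine h6.congr' ?_
  filter_upwards [re_pos_Lf hT 0] with z hz
  rw [h.fe₁ z hz, ← mul_assoc]
  congr 1
  have hw : (1 : ℂ) + ((z.im - 0) / z.re : ℝ) * Complex.I = z / z.re := by
    have hz' : (z.re : ℂ) ≠ 0 := by exact_mod_cast hz.ne'
    rw [eq_div_iff hz', add_mul, one_mul, mul_right_comm, ← Complex.ofReal_mul,
      div_mul_cancel₀ _ hz.ne', sub_zero, Complex.re_add_im]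
  have hz0 : z ≠ 0 := by
    rintro rfl
    simp at hz
  have hz' : (z.re : ℂ) ≠ 0 := by exact_mod_cast hz.ne'
  have hq : z / z.re ≠ 0 := div_ne_zero hz0 hz'
  have hlog : Complex.log z = Real.log z.re + Complex.log (z / z.re) := by
    rw [← Complex.log_ofReal_mul hz hq, mul_div_cancel₀ _ hz']
  rw [hw, Complex.cpow_def_of_ne_zero hq, Complex.cpow_def_of_ne_zero hz0, hlog,
    Real.rpow_def_of_pos hz, Complex.ofReal_exp, ← Complex.exp_add]
  congr 1
  push_cast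
  ring

/-- The factor of the inversion. -/
def mult (k y : ℝ) : ℂ :=
  ((-(1 / y) : ℝ) * Complex.I : ℂ) ^ (-(k : ℂ)) * ((((-(1 / y)) ^ 2 : ℝ) ^ k : ℝ) : ℂ)

/-- Inversion. -/
theorem As.inv (hT : Hts T) (h : ThetaPair k μ ν) {y : ℝ} (hy : y ≠ 0) {c : ℂ} {e : ℝ}
    (hc : As T k ν y c e) :
    As T k μ (-(1 / y)) (mult k y * c) (‖mult k y‖ * e) := by
  set y' : ℝ := -(1 / y) with hy'
  have hy0 : y' ≠ 0 := neg_ne_zero.2 (one_div_ne_zero hy)
  have hyy : -(1 / y') = y := by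
    rw [hy']
    field_simp
  have h2 : Tendsto (fun z : ℂ => z ^ (-(k : ℂ))) (Lf T y')
      (𝓝 (((y' : ℂ) * Complex.I) ^ (-(k : ℂ)))) := by
    have h4 : ContinuousAt (fun w : ℂ => w ^ (-(k : ℂ))) ((y' : ℂ) * Complex.I) := by
      apply continuousAt_cpow_const
      right
      simpa using hy0
    exact h4.tendsto.comp (id_Lf hT y')
  have h3 : Tendsto (fun z : ℂ => (((z.re ^ 2 + z.im ^ 2) ^ k : ℝ) : ℂ)) (Lf T y')
      (𝓝 ((((y' ^ 2 : ℝ) ^ k : ℝ)) : ℂ)) := by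
    have h4 : ContinuousAt (fun w : ℝ => ((w ^ k : ℝ) : ℂ)) (y' ^ 2) :=
      Complex.continuous_ofReal.continuousAt.comp
        (Real.continuousAt_rpow_const _ _ (Or.inl (pow_ne_zero 2 hy0)))
    exact h4.tendsto.comp (sq_Lf hT y')
  have h5 := h2.mul h3
  set M : ℂ := mult k y with hM
  have h6 : Tendsto (fun z : ℂ => z ^ (-(k : ℂ)) * (((z.re ^ 2 + z.im ^ 2) ^ k : ℝ) : ℂ))
      (Lf T y') (𝓝 M) := h5
  intro ε hε
  set δ : ℝ := ε / (2 * (‖M‖ + 1)) with hδ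
  have hM0 : 0 ≤ ‖M‖ := norm_nonneg _
  have hδ0 : 0 < δ := by positivity
  have h7 : Tendsto (fun z : ℂ =>
      ‖z ^ (-(k : ℂ)) * (((z.re ^ 2 + z.im ^ 2) ^ k : ℝ) : ℂ)‖ * (e + δ) +
      ‖z ^ (-(k : ℂ)) * (((z.re ^ 2 + z.im ^ 2) ^ k : ℝ) : ℂ) - M‖ * ‖c‖) (Lf T y')
      (𝓝 (‖M‖ * (e + δ) + ‖M - M‖ * ‖c‖)) :=
    (h6.norm.mul_const _).add ((h6.sub_const M).norm.mul_const _)
  rw [sub_self, norm_zero, zero_mul, add_zero] at h7
  have h8 : ‖M‖ * (e + δ) < ‖M‖ * e + ε := by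
    have : ‖M‖ * δ ≤ ε / 2 := by
      rw [hδ, mul_div_assoc', div_le_div_iff₀ (by positivity) (by norm_num)]
      nlinarith
    linarith
  have h9 : ∀ᶠ z in Lf T y', ‖(((1 / z).re ^ k : ℝ) : ℂ) * LT ν (1 / z) - c‖ ≤ e + δ := by
    have := inv_Lf hT hy0
    rw [hyy] at this
    exact this.eventually (hc δ hδ0)
  filter_upwards [re_pos_Lf hT y', h7.eventually (gt_mem_nhds h8), h9] with z hz hz1 hz2
  have hs : 0 < z.re ^ 2 + z.im ^ 2 := by positivity
  have hs' : (((z.re ^ 2 + z.im ^ 2) ^ k : ℝ) : ℂ) ≠ 0 := by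
    exact_mod_cast (Real.rpow_pos_of_pos hs k).ne'
  have e1 : ((z.re ^ k : ℝ) : ℂ) * LT μ z =
      z ^ (-(k : ℂ)) * (((z.re ^ 2 + z.im ^ 2) ^ k : ℝ) : ℂ) *
        ((((1 / z).re ^ k : ℝ) : ℂ) * LT ν (1 / z)) := by
    rw [h.fe₁ z hz, inv_re', Real.div_rpow hz.le hs.le]
    push_cast [Complex.ofReal_div] at hs' ⊢
    field_simp
  set g : ℂ := z ^ (-(k : ℂ)) * (((z.re ^ 2 + z.im ^ 2) ^ k : ℝ) : ℂ) with hg
  set w : ℂ := (((1 / z).re ^ k : ℝ) : ℂ) * LT ν (1 / z) with hw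
  have e2 : ((z.re ^ k : ℝ) : ℂ) * LT μ z - M * c = g * (w - c) + (g - M) * c := by
    rw [e1]
    ring
  rw [e2]
  refine (norm_add_le _ _).trans ?_
  rw [norm_mul g (w - c), norm_mul (g - M) c]
  have h10 : ‖g‖ * ‖w - c‖ ≤ ‖g‖ * (e + δ) := mul_le_mul_of_nonneg_left hz2 (norm_nonneg _)
  linarith

/-- The condition of an approximate asymptotic period. -/
def Tc (T : Filter ℝ) (k : ℝ) (μ : Measure ℝ) (x : ℝ) (τ : ℂ) (η : ℝ) : Prop :=
  ∃ A : Set ℝ, MeasurableSet A ∧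
    Tendsto (fun t : ℝ => t ^ k * ∫ s in A, Real.exp (-Real.pi * t * s) ∂μ) T (𝓝 0) ∧
    ∀ᵐ s ∂μ, s ∉ A → ‖Complex.exp (-(Real.pi : ℂ) * ((x : ℂ) * Complex.I) * s) - τ‖ ≤ η

/-- Translation by an approximate asymptotic period. -/
theorem As.shift (hT : Hts T) (h : ThetaPair k μ ν) (hν : Tendsto (LTr ν) atTop (𝓝 1)) {x : ℝ}
    {τ : ℂ} (hτ : ‖τ‖ = 1) {η : ℝ} (hη : 0 ≤ η) (hTc : Tc T k μ x τ η) {y : ℝ} {c : ℂ} {e : ℝ}
    (hc : As T k μ y c e) : As T k μ (y + x) (τ * c) (e + η) := by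
  obtain ⟨A, hA, hG, hAe⟩ := hTc
  set G : ℝ → ℝ := fun t => ∫ s in A, Real.exp (-Real.pi * t * s) ∂μ with hGd
  -- the pointwise estimate
  have hpt : ∀ z : ℂ, 0 < z.re → ‖LT μ z - τ * LT μ (z - (x : ℂ) * Complex.I)‖ ≤
      η * LTr μ z.re + 2 * G z.re := by
    intro z hz
    have hint : ∀ w : ℂ, 0 < w.re →
        Integrable (fun s : ℝ => Complex.exp (-(Real.pi : ℂ) * w * s)) μ := by
      intro w hw
      have h := h.int₁ (Real.pi * w.re) (by positivity)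
      refine h.mono' ?_ (ae_of_all _ fun s => ?_)
      · exact (by fun_prop : Continuous fun s : ℝ =>
          Complex.exp (-(Real.pi : ℂ) * w * s)).aestronglyMeasurable
      · rw [Complex.norm_exp]
        apply le_of_eq
        congr 1
        simp
    have hw : 0 < (z - (x : ℂ) * Complex.I).re := by simpa using hz
    have e1 : LT μ z - τ * LT μ (z - (x : ℂ) * Complex.I) =
        ∫ s : ℝ, (Complex.exp (-(Real.pi : ℂ) * z * s) -
          τ * Complex.exp (-(Real.pi : ℂ) * (z - (x : ℂ) * Complex.I) * s)) ∂μ := by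
      unfold LT
      rw [integral_sub (hint z hz) ((hint _ hw).const_mul τ), integral_const_mul]
    rw [e1]
    have hb : ∀ᵐ s : ℝ ∂μ, ‖Complex.exp (-(Real.pi : ℂ) * z * s) -
        τ * Complex.exp (-(Real.pi : ℂ) * (z - (x : ℂ) * Complex.I) * s)‖ ≤
        η * Real.exp (-Real.pi * z.re * s) +
          2 * A.indicator (fun s : ℝ => Real.exp (-Real.pi * z.re * s)) s := by
      filter_upwards [hAe] with s hs
      have e2 : Complex.exp (-(Real.pi : ℂ) * z * s) -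
          τ * Complex.exp (-(Real.pi : ℂ) * (z - (x : ℂ) * Complex.I) * s) =
          Complex.exp (-(Real.pi : ℂ) * (z - (x : ℂ) * Complex.I) * s) *
            (Complex.exp (-(Real.pi : ℂ) * ((x : ℂ) * Complex.I) * s) - τ) := by
        have e0 : -(Real.pi : ℂ) * z * s = -(Real.pi : ℂ) * (z - (x : ℂ) * Complex.I) * s +
            -(Real.pi : ℂ) * ((x : ℂ) * Complex.I) * s := by ring
        rw [e0, Complex.exp_add]
        ring
      have e3 : ‖Complex.exp (-(Real.pi : ℂ) * (z - (x : ℂ) * Complex.I) * s)‖ =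
          Real.exp (-Real.pi * z.re * s) := by
        rw [Complex.norm_exp]
        congr 1
        simp
      rw [e2, norm_mul, e3]
      have hE : 0 < Real.exp (-Real.pi * z.re * s) := Real.exp_pos _
      by_cases hsA : s ∈ A
      · rw [indicator_of_mem hsA]
        have h4 : ‖Complex.exp (-(Real.pi : ℂ) * ((x : ℂ) * Complex.I) * s) - τ‖ ≤ 2 := by
          refine (norm_sub_le _ _).trans ?_
          rw [hτ, Complex.norm_exp]
          have : (-(Real.pi : ℂ) * ((x : ℂ) * Complex.I) * s).re = 0 := by simp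
          rw [this, Real.exp_zero]
          norm_num
        have h6 := mul_le_mul_of_nonneg_left h4 hE.le
        have h7 : 0 ≤ η * Real.exp (-Real.pi * z.re * s) := by positivity
        linarith
      · rw [indicator_of_notMem hsA, mul_zero, add_zero]
        have h3 := mul_le_mul_of_nonneg_left (hs hsA) hE.le
        linarith
    have hI := LTr_integrable h.int₁ hz
    refine (norm_integral_le_of_norm_le ?_ hb).trans (le_of_eq ?_)
    · exact (hI.const_mul _).add ((hI.indicator hA).const_mul _)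
    · rw [integral_add (hI.const_mul _) ((hI.indicator hA).const_mul _), integral_const_mul,
        integral_const_mul, integral_indicator hA]
      rfl
  intro ε hε
  have h1 : ∀ᶠ z in Lf T (y + x), ‖((((z - (x : ℂ) * Complex.I).re ^ k : ℝ) : ℂ) *
      LT μ (z - (x : ℂ) * Complex.I)) - c‖ ≤ e + ε / 2 :=
    (shift_Lf T y x).eventually (hc (ε / 2) (by positivity))
  have h2 : Tendsto (fun z : ℂ => η * (z.re ^ k * LTr μ z.re) + 2 * (z.re ^ k * G z.re))
      (Lf T (y + x)) (𝓝 (η * 1 + 2 * 0)) :=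
    (((tendsto_LTr h hν).comp (re_Lf hT (y + x))).const_mul η).add
      ((hG.comp (re_LfT T (y + x))).const_mul 2)
  have h3 : η * 1 + 2 * 0 < η + ε / 2 := by linarith
  filter_upwards [h1, h2.eventually (gt_mem_nhds h3), re_pos_Lf hT (y + x)] with z hz1 hz2 hz
  have e1 : (z - (x : ℂ) * Complex.I).re = z.re := by simp
  rw [e1] at hz1
  have hr : 0 < z.re ^ k := Real.rpow_pos_of_pos hz k
  have e2 : ((z.re ^ k : ℝ) : ℂ) * LT μ z - τ * c =
      ((z.re ^ k : ℝ) : ℂ) * (LT μ z - τ * LT μ (z - (x : ℂ) * Complex.I)) +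
      τ * (((z.re ^ k : ℝ) : ℂ) * LT μ (z - (x : ℂ) * Complex.I) - c) := by ring
  rw [e2]
  refine (norm_add_le _ _).trans ?_
  rw [norm_mul, norm_mul, hτ, one_mul, Complex.norm_real, Real.norm_of_nonneg hr.le]
  have h7 := mul_le_mul_of_nonneg_left (hpt z hz) hr.le
  linarith

end Pool.Agent.Lib.MP_adb5ad_gt.Hk
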