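import Pool.Agent.Lib.MP_adb5ad_gt.Hk.Path

/-!
# MP_adb5ad_gt, package Hk: the Hecke restriction for approximately quasi-periodic theta pairs
-/

set_option autoImplicit false

open MeasureTheory Filter Topology Set

noncomputable section

namespace Pool.Agent.Lib.MP_adb5ad_gt.Hk

open Pool.Agent.Lib.MP_adb5ad_gt

/-- The recursion of the quotients of sines. -/
theorem sin_rec (θ : ℝ) (n : ℕ) : Real.sin (((n : ℝ) + 2) * θ) =
    2 * Real.cos θ * Real.sin (((n : ℝ) + 1) * θ) - Real.sin ((n : ℝ) * θ) := by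
  have h1 : ((n : ℝ) + 2) * θ = ((n : ℝ) + 1) * θ + θ := by ring
  have h2 : (n : ℝ) * θ = ((n : ℝ) + 1) * θ - θ := by ring
  rw [h1, h2, Real.sin_add, Real.sin_sub]
  ring

/-- The first path. -/
theorem first (k : ℝ) {x θ : ℝ} (hθ : 0 < θ) (hθ2 : θ < Real.pi / 2)
    (hx : x = 2 * Real.cos θ) (n : ℕ) (hn : ((n : ℝ) + 1) * θ < Real.pi) :
    ∃ K : ℝ, ∀ (T : Filter ℝ) (μ ν : Measure ℝ) (τ : ℂ) (η : ℝ), Data T k μ ν x τ η →
    As2 T k μ ν (Real.sin (((n : ℝ) + 2) * θ) / Real.sin (((n : ℝ) + 1) * θ))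
      (τ * τ ^ n * Complex.exp (Real.pi * k / 2 * Complex.I) ^ n *
        (((Real.sin (((n : ℝ) + 1) * θ) / Real.sin θ) ^ (-k) : ℝ) : ℂ)) (η * K) := by
  have hs : 0 < Real.sin θ := Real.sin_pos_of_pos_of_lt_pi hθ (by linarith [Real.pi_pos])
  set W : ℕ → ℝ := fun n => Real.sin (((n : ℝ) + 1) * θ) / Real.sin θ with hW
  have h0 : W 0 = 1 := by
    simp only [hW, Nat.cast_zero, zero_add, one_mul]
    exact div_self hs.ne'
  have hrec : ∀ n, W (n + 2) = x * W (n + 1) - W n := by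
    intro n
    simp only [hW]
    have h := sin_rec θ (n + 1)
    push_cast at h ⊢
    have e1 : ((n : ℝ) + 2 + 1) * θ = ((n : ℝ) + 1 + 2) * θ := by ring
    rw [e1, h, hx]
    field_simp
  refine ⟨Kp k W 1 n, fun T μ ν τ η D => ?_⟩
  have h1 : As2 T k μ ν (W 1) τ (η * 1) := by
    have h2 := D.shift D.zero
    have e : (0 : ℝ) + x = W 1 := by
      simp only [hW, Nat.cast_one]
      have : ((1 : ℝ) + 1) * θ = 2 * θ := by ring
      rw [this, Real.sin_two_mul, hx]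
      field_simp
      ring
    rw [e, mul_one, zero_add] at h2
    rw [mul_one]
    exact h2
  have h3 := D.path h0 hrec h1 n (by
    intro j hj
    simp only [hW]
    apply div_pos _ hs
    have hj' : (j : ℝ) ≤ n := by exact_mod_cast hj
    apply Real.sin_pos_of_pos_of_lt_pi (by positivity)
    refine lt_of_le_of_lt ?_ hn
    apply mul_le_mul_of_nonneg_right _ hθ.le
    linarith)
  have e2 : W (n + 1) / W n = Real.sin (((n : ℝ) + 2) * θ) / Real.sin (((n : ℝ) + 1) * θ) := by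
    simp only [hW]
    push_cast
    have e3 : ((n : ℝ) + 1 + 1) * θ = ((n : ℝ) + 2) * θ := by ring
    rw [e3]
    have h4 : 0 < Real.sin (((n : ℝ) + 1) * θ) :=
      Real.sin_pos_of_pos_of_lt_pi (by positivity) hn
    field_simp
  rw [e2] at h3
  exact h3

/-- If the angle is not `π / q` there is no good approximate period. -/
theorem angle {k x θ : ℝ} (hk : 0 < k) (hθ : 0 < θ) (hθ2 : θ < Real.pi / 2)
    (hx : x = 2 * Real.cos θ) (hq : ∀ q : ℕ, 3 ≤ q → θ ≠ Real.pi / q) :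
    ∃ η₀ : ℝ, 0 < η₀ ∧ ∀ (T : Filter ℝ) (μ ν : Measure ℝ) (τ : ℂ) (η : ℝ), η ≤ η₀ →
      ¬ Data T k μ ν x τ η := by
  have hpi := Real.pi_pos
  set J : ℕ := ⌊Real.pi / θ⌋₊ with hJ
  have h0 : 0 ≤ Real.pi / θ := by positivity
  have hJ1 : (J : ℝ) ≤ Real.pi / θ := Nat.floor_le h0
  have hJ2 : Real.pi / θ < J + 1 := Nat.lt_floor_add_one _
  have h2 : 2 < Real.pi / θ := by
    rw [lt_div_iff₀ hθ]
    linarith
  rcases hJ1.eq_or_lt with heq | hlt
  · exfalso
    refine hq J ?_ ?_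
    · have : (2 : ℝ) < J := by rw [heq]; exact h2
      exact_mod_cast this
    · rw [heq]
      field_simp
  · have hJ3 : (1 : ℝ) < J := by linarith
    have hJ4 : 1 ≤ J := by
      have : (1 : ℝ) ≤ J := hJ3.le
      exact_mod_cast this
    rw [lt_div_iff₀ hθ] at hlt
    rw [div_lt_iff₀ hθ] at hJ2
    obtain ⟨n, hn⟩ : ∃ n, J = n + 1 := ⟨J - 1, by omega⟩
    have hn' : (J : ℝ) = n + 1 := by rw [hn]; push_cast; ring
    rw [hn'] at hlt hJ2
    obtain ⟨K, hK⟩ := first k hθ hθ2 hx n hlt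
    have hs : 0 < Real.sin θ := Real.sin_pos_of_pos_of_lt_pi hθ (by linarith)
    have hs1 : 0 < Real.sin (((n : ℝ) + 1) * θ) :=
      Real.sin_pos_of_pos_of_lt_pi (by positivity) hlt
    have hpos : 0 < Real.sin (((n : ℝ) + 1) * θ) / Real.sin θ := div_pos hs1 hs
    have h4 : Real.sin (((n : ℝ) + 1) * θ) < Real.sin θ := by
      rw [← Real.sin_pi_sub (((n : ℝ) + 1) * θ)]
      apply Real.sin_lt_sin_of_lt_of_le_pi_div_two
      · linarith
      · exact hθ2.le
      · linarith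
    have h5 : Real.sin (((n : ℝ) + 1) * θ) / Real.sin θ < 1 := by
      rw [div_lt_one hs]
      exact h4
    have h6 := Real.one_lt_rpow_of_pos_of_lt_one_of_neg hpos h5 (neg_lt_zero.2 hk)
    set r : ℝ := (Real.sin (((n : ℝ) + 1) * θ) / Real.sin θ) ^ (-k) with hr
    refine ⟨(r - 1) / (2 * (|K| + 1)), by
      have : 0 < r - 1 := by linarith
      positivity, fun T μ ν τ η hη D => ?_⟩
    have h3 := D.norm_le (hK T μ ν τ η D)
    have hr0 : 0 ≤ r := by linarith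
    simp only [norm_mul, norm_pow, D.hτ, norm_E, one_pow, one_mul, Complex.norm_real,
      Real.norm_of_nonneg hr0] at h3
    have h7 : η * K ≤ (r - 1) / 2 := by
      have hK0 : 0 ≤ |K| := abs_nonneg K
      calc η * K ≤ η * |K| := mul_le_mul_of_nonneg_left (le_abs_self K) D.hη
        _ ≤ (r - 1) / (2 * (|K| + 1)) * |K| := mul_le_mul_of_nonneg_right hη hK0
        _ ≤ (r - 1) / 2 := by
          rw [div_mul_eq_mul_div, div_le_div_iff₀ (by positivity) (by norm_num)]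
          nlinarith
    linarith

/-- The first closed path. -/
theorem close₁ (k : ℝ) {x : ℝ} {q : ℕ} (hq : 3 ≤ q) (hx : x = 2 * Real.cos (Real.pi / q)) :
    ∃ K : ℝ, ∀ (T : Filter ℝ) (μ ν : Measure ℝ) (τ : ℂ) (η : ℝ), Data T k μ ν x τ η →
    ‖τ ^ (q - 1) * Complex.exp (Real.pi * k / 2 * Complex.I) ^ (q - 2) - 1‖ ≤ η * K := by
  have hpi := Real.pi_pos
  obtain ⟨n, rfl⟩ : ∃ n, q = n + 2 := ⟨q - 2, by omega⟩
  have hn : (1 : ℝ) ≤ n := by
    have : 1 ≤ n := by omega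
    exact_mod_cast this
  set θ : ℝ := Real.pi / ((n + 2 : ℕ) : ℝ) with hθd
  have hθ' : θ = Real.pi / ((n : ℝ) + 2) := by rw [hθd]; push_cast; ring
  have hθ : 0 < θ := by rw [hθ']; positivity
  have hθ2 : θ < Real.pi / 2 := by
    rw [hθ', div_lt_div_iff_of_pos_left hpi (by positivity) (by norm_num)]
    linarith
  have hmul : ((n : ℝ) + 2) * θ = Real.pi := by
    rw [hθ']
    field_simp
  obtain ⟨K, hK⟩ := first k hθ hθ2 hx n (by
    have : ((n : ℝ) + 1) * θ = Real.pi - θ := by linarith [hmul]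
    linarith)
  refine ⟨K, fun T μ ν τ η D => ?_⟩
  have h1 := hK T μ ν τ η D
  have hs : 0 < Real.sin θ := Real.sin_pos_of_pos_of_lt_pi hθ (by linarith)
  have e1 : ((n : ℝ) + 1) * θ = Real.pi - θ := by linarith [hmul]
  rw [hmul, e1, Real.sin_pi, zero_div, Real.sin_pi_sub, div_self hs.ne', Real.one_rpow,
    Complex.ofReal_one, mul_one] at h1
  have h2 := D.uniq h1 D.zero
  rw [show n + 2 - 1 = n + 1 by omega, show n + 2 - 2 = n by omega, pow_succ']
  rw [add_zero] at h2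
  exact h2

/-- The second closed path. -/
theorem close₂ (k : ℝ) {x : ℝ} {q : ℕ} (hq : 3 ≤ q) (hx : x = 2 * Real.cos (Real.pi / q)) :
    ∃ K : ℝ, ∀ (T : Filter ℝ) (μ ν : Measure ℝ) (τ : ℂ) (η : ℝ), Data T k μ ν x τ η →
    ‖τ ^ q * Complex.exp (Real.pi * k / 2 * Complex.I) ^ (q - 2) - 1‖ ≤ η * K := by
  have hpi := Real.pi_pos
  obtain ⟨n, rfl⟩ : ∃ n, q = n + 2 := ⟨q - 2, by omega⟩
  have hn : (1 : ℝ) ≤ n := by
    have : 1 ≤ n := by omega
    exact_mod_cast this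
  set θ : ℝ := Real.pi / ((n + 2 : ℕ) : ℝ) with hθd
  have hθ' : θ = Real.pi / ((n : ℝ) + 2) := by rw [hθd]; push_cast; ring
  have hθ : 0 < θ := by rw [hθ']; positivity
  have hθ2 : θ < Real.pi / 2 := by
    rw [hθ', div_lt_div_iff_of_pos_left hpi (by positivity) (by norm_num)]
    linarith
  have hmul : ((n : ℝ) + 2) * θ = Real.pi := by
    rw [hθ']
    field_simp
  have hs : 0 < Real.sin θ := Real.sin_pos_of_pos_of_lt_pi hθ (by linarith)
  have hxpos : 0 < x := by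
    rw [hx]
    have := Real.cos_pos_of_mem_Ioo (x := θ) ⟨by linarith, hθ2⟩
    positivity
  set S : ℕ → ℝ := fun n => Real.sin ((n : ℝ) * θ) / Real.sin θ with hS
  have S0 : S 0 = 0 := by simp [hS]
  have S1 : S 1 = 1 := by
    simp only [hS, Nat.cast_one, one_mul]
    exact div_self hs.ne'
  have Srec : ∀ n, S (n + 2) = x * S (n + 1) - S n := by
    intro n
    simp only [hS]
    push_cast
    rw [sin_rec, hx]
    field_simp
  have Spos : ∀ j : ℕ, 1 ≤ j → j ≤ n + 1 → 0 < S j := by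
    intro j h1 h2
    apply div_pos _ hs
    have h1' : (1 : ℝ) ≤ j := by exact_mod_cast h1
    have h2' : (j : ℝ) ≤ n + 1 := by exact_mod_cast h2
    apply Real.sin_pos_of_pos_of_lt_pi (by positivity)
    have h3 : (j : ℝ) * θ ≤ ((n : ℝ) + 1) * θ := mul_le_mul_of_nonneg_right h2' hθ.le
    linarith
  have Sq1 : S (n + 1) = 1 := by
    simp only [hS]
    push_cast
    have e1 : ((n : ℝ) + 1) * θ = Real.pi - θ := by linarith [hmul]
    rw [e1, Real.sin_pi_sub, div_self hs.ne']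
  have Sq : S (n + 2) = 0 := by
    simp only [hS]
    push_cast
    rw [hmul, Real.sin_pi, zero_div]
  have Sq2 : S (n + 3) = -1 := by
    have := Srec (n + 1)
    rw [show n + 1 + 2 = n + 3 from rfl, show n + 1 + 1 = n + 2 from rfl, Sq, Sq1] at this
    linarith
  set W : ℕ → ℝ := fun n => x * S n + S (n + 1) with hW
  have W0 : W 0 = 1 := by simp only [hW, S0]; rw [zero_add, S1]; ring
  have W1 : W 1 = 2 * x := by
    have h := Srec 0
    simp only [hW]
    rw [zero_add, zero_add] at h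
    rw [show 1 + 1 = 2 from rfl, h, S1, S0]
    ring
  have hrec : ∀ n, W (n + 2) = x * W (n + 1) - W n := by
    intro n
    simp only [hW]
    rw [show n + 2 + 1 = (n + 1) + 2 from rfl, Srec (n + 1), Srec n]
    ring
  have Wpos : ∀ j, j ≤ n + 1 → 0 < W j := by
    intro j hj
    rcases Nat.eq_zero_or_pos j with rfl | h
    · rw [W0]; exact one_pos
    · have h1 := Spos j h hj
      have h2 : 0 ≤ S (j + 1) := by
        rcases Nat.lt_or_ge j (n + 1) with h3 | h3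
        · exact (Spos (j + 1) (by omega) (by omega)).le
        · have : j = n + 1 := by omega
          rw [this, Sq]
      have h3 : 0 < x * S j := mul_pos hxpos h1
      simp only [hW]
      linarith
  have e1 : W (n + 1) = x := by
    simp only [hW]
    rw [Sq1, Sq]
    ring
  have e2 : W (n + 1 + 1) = -1 := by
    simp only [hW]
    rw [show n + 1 + 1 = n + 2 from rfl, Sq, Sq2]
    ring
  have hy : (-1 : ℝ) / x < 0 := div_neg_of_neg_of_pos (by norm_num) hxpos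
  refine ⟨‖mult k (-1 / x)‖ * Kp k W 2 (n + 1) + 3, fun T μ ν τ η D => ?_⟩
  have ha : As2 T k μ ν (W 1) (τ * τ) (η * 2) := by
    have h2 := D.shift (D.shift D.zero)
    have e : (0 : ℝ) + x + x = W 1 := by rw [W1]; ring
    have e' : (0 : ℝ) + η + η = η * 2 := by ring
    rw [e, mul_one, e'] at h2
    exact h2
  have h3 := D.path W0 hrec ha (n + 1) Wpos
  rw [e1, e2] at h3
  have h4 := D.step hy.ne h3
  have e3 : x - 1 / (-1 / x) = W 1 := by
    rw [W1]
    field_simp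
    ring
  have e4 : -(-1 / x) = x⁻¹ := by
    field_simp
  have hxk : (((x ^ (-k) : ℝ)) : ℂ) ≠ 0 := by
    exact_mod_cast (Real.rpow_pos_of_pos hxpos _).ne'
  have hxi : x⁻¹ ^ (-k) = (x ^ (-k))⁻¹ := Real.inv_rpow hxpos.le _
  set Ex : ℂ := Complex.exp (Real.pi * k / 2 * Complex.I) with hEx
  have hE0 : Ex ≠ 0 := Complex.exp_ne_zero _
  have e5 : τ * (mult k (-1 / x) * (τ * τ * τ ^ (n + 1) * Ex ^ (n + 1) *
      ((x ^ (-k) : ℝ) : ℂ))) = τ * τ * (τ ^ (n + 2) * Ex ^ n) := by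
    rw [mult_neg hy, e4, Complex.exp_neg, ← hEx, hxi, Complex.ofReal_inv, pow_succ Ex n]
    have : τ * (((x ^ (-k) : ℝ) : ℂ)⁻¹ * Ex⁻¹ * (τ * τ * τ ^ (n + 1) * (Ex ^ n * Ex) *
        ((x ^ (-k) : ℝ) : ℂ))) = τ * (τ * τ * τ ^ (n + 1) * Ex ^ n) *
        ((((x ^ (-k) : ℝ) : ℂ)⁻¹ * ((x ^ (-k) : ℝ) : ℂ)) * (Ex⁻¹ * Ex)) := by ring
    rw [this, inv_mul_cancel₀ hxk, inv_mul_cancel₀ hE0]
    ring
  rw [e3, e5] at h4
  have h5 := D.uniq h4 ha
  have e6 : τ * τ * (τ ^ (n + 2) * Ex ^ n) - τ * τ = τ * τ * (τ ^ (n + 2) * Ex ^ n - 1) := by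
    ring
  rw [e6, norm_mul, norm_mul, D.hτ, one_mul, one_mul] at h5
  rw [show n + 2 - 2 = n by omega]
  refine h5.trans (le_of_eq ?_)
  ring

/-- Powers of a number of absolute value one close to one. -/
theorem norm_pow_sub_one {τ : ℂ} (hτ : ‖τ‖ = 1) (n : ℕ) : ‖τ ^ n - 1‖ ≤ n * ‖τ - 1‖ := by
  induction n with
  | zero => simp
  | succ n ih =>
    have e : τ ^ (n + 1) - 1 = τ * (τ ^ n - 1) + (τ - 1) := by ring
    rw [e]
    refine (norm_add_le _ _).trans ?_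
    rw [norm_mul, hτ, one_mul]
    push_cast
    linarith

/-- **The uniform Hecke theorem.** -/
theorem hecke {k x : ℝ} (hk : 0 < k) (hx0 : 0 < x) (hx2 : x < 2) :
    ∃ c : ℝ, 0 < c ∧ ∀ (τ : ℂ) (ρ : ℝ), 0 < ρ → ρ ≤ 1 →
      ((∃ q : ℕ, 3 ≤ q ∧ x = 2 * Real.cos (Real.pi / q) ∧ ∃ j : ℤ, k * ((q : ℝ) - 2) = 4 * j) →
        ρ ≤ ‖τ - 1‖) →
      ∀ (T : Filter ℝ) (μ ν : Measure ℝ) (η : ℝ), η ≤ c * ρ → ¬ Data T k μ ν x τ η := by
  have hpi := Real.pi_pos
  set θ : ℝ := Real.arccos (x / 2) with hθ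
  have hcos : Real.cos θ = x / 2 := Real.cos_arccos (by linarith) (by linarith)
  have hx : x = 2 * Real.cos θ := by rw [hcos]; ring
  have hθ0 : 0 < θ := Real.arccos_pos.2 (by linarith)
  have hθ2 : θ < Real.pi / 2 := Real.arccos_lt_pi_div_two.2 (by linarith)
  by_cases hang : ∀ q : ℕ, 3 ≤ q → θ ≠ Real.pi / q
  · obtain ⟨η₀, h0, h1⟩ := angle hk hθ0 hθ2 hx hang
    refine ⟨η₀, h0, fun τ ρ hρ hρ1 _ T μ ν η hη => h1 T μ ν τ η (hη.trans ?_)⟩
    exact mul_le_of_le_one_right h0.le hρ1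
  · push Not at hang
    obtain ⟨q, hq, hq2⟩ := hang
    have hxq : x = 2 * Real.cos (Real.pi / q) := by rw [← hq2]; exact hx
    obtain ⟨K₁, hK₁⟩ := close₁ k hq hxq
    obtain ⟨K₂, hK₂⟩ := close₂ k hq hxq
    set Ex : ℂ := Complex.exp (Real.pi * k / 2 * Complex.I) with hEx
    -- the two consequences
    have hA : ∀ (T : Filter ℝ) (μ ν : Measure ℝ) (τ : ℂ) (η : ℝ), Data T k μ ν x τ η →
        ‖τ - 1‖ ≤ η * (K₁ + K₂) := by
      intro T μ ν τ η D
      have h1 := hK₁ T μ ν τ η D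
      have h2 := hK₂ T μ ν τ η D
      have e : τ - 1 = (τ ^ q * Ex ^ (q - 2) - 1) - τ * (τ ^ (q - 1) * Ex ^ (q - 2) - 1) := by
        have e1 : τ ^ q = τ * τ ^ (q - 1) := by
          rw [← pow_succ']
          congr 1
          omega
        rw [e1]
        ring
      rw [e]
      refine (norm_sub_le _ _).trans ?_
      rw [norm_mul, D.hτ, one_mul]
      linarith
    have hB : ∀ (T : Filter ℝ) (μ ν : Measure ℝ) (τ : ℂ) (η : ℝ), Data T k μ ν x τ η →
        ‖Ex ^ (q - 2) - 1‖ ≤ η * (K₁ + ((q - 1 : ℕ) : ℝ) * (K₁ + K₂)) := by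
      intro T μ ν τ η D
      have h1 := hK₁ T μ ν τ η D
      have h2 := hA T μ ν τ η D
      have h3 := norm_pow_sub_one D.hτ (q - 1)
      have e : ‖Ex ^ (q - 2) - 1‖ =
          ‖(τ ^ (q - 1) * Ex ^ (q - 2) - 1) - (τ ^ (q - 1) - 1)‖ := by
        have e1 : (τ ^ (q - 1) * Ex ^ (q - 2) - 1) - (τ ^ (q - 1) - 1) =
            τ ^ (q - 1) * (Ex ^ (q - 2) - 1) := by ring
        rw [e1, norm_mul, norm_pow, D.hτ, one_pow, one_mul]
      rw [e]
      refine (norm_sub_le _ _).trans ?_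
      have h4 : ((q - 1 : ℕ) : ℝ) * ‖τ - 1‖ ≤ ((q - 1 : ℕ) : ℝ) * (η * (K₁ + K₂)) :=
        mul_le_mul_of_nonneg_left h2 (Nat.cast_nonneg _)
      linarith
    by_cases c1 : Ex ^ (q - 2) = 1
    · refine ⟨1 / (2 * (|K₁ + K₂| + 1)), by positivity,
        fun τ ρ hρ hρ1 h T μ ν η hη D => ?_⟩
      have h1 : ρ ≤ ‖τ - 1‖ := by
        refine h ⟨q, hq, hxq, ?_⟩
        rw [hEx, ← Complex.exp_nat_mul, Complex.exp_eq_one_iff] at c1
        obtain ⟨j, hj⟩ := c1
        refine ⟨j, ?_⟩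
        have hqc : ((q - 2 : ℕ) : ℂ) = (q : ℂ) - 2 := by
          rw [Nat.cast_sub (by omega)]
          norm_num
        rw [hqc] at hj
        have hpc : (Real.pi : ℂ) ≠ 0 := by exact_mod_cast hpi.ne'
        have h3 : ((k * ((q : ℝ) - 2) : ℝ) : ℂ) = ((4 * (j : ℝ) : ℝ) : ℂ) := by
          push_cast
          have h4 : (((q : ℂ) - 2) * k) * ((Real.pi : ℂ) * Complex.I) =
              (4 * (j : ℂ)) * ((Real.pi : ℂ) * Complex.I) := by
            linear_combination 2 * hj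
          have h5 := mul_right_cancel₀ (mul_ne_zero hpc Complex.I_ne_zero) h4
          rw [← h5]
          ring
        exact_mod_cast h3
      have h2 := h1.trans (hA T μ ν τ η D)
      have hK0 : 0 ≤ |K₁ + K₂| := abs_nonneg _
      have h3 : η * (K₁ + K₂) ≤ ρ / 2 := by
        calc η * (K₁ + K₂) ≤ η * |K₁ + K₂| := mul_le_mul_of_nonneg_left (le_abs_self _) D.hη
          _ ≤ 1 / (2 * (|K₁ + K₂| + 1)) * ρ * |K₁ + K₂| := mul_le_mul_of_nonneg_right hη hK0
          _ = ρ * |K₁ + K₂| / (2 * (|K₁ + K₂| + 1)) := by ring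
          _ ≤ ρ / 2 := by
            rw [div_le_div_iff₀ (by positivity) (by norm_num)]
            nlinarith
      linarith
    · have hv : 0 < ‖Ex ^ (q - 2) - 1‖ := norm_pos_iff.2 (sub_ne_zero.2 c1)
      set v : ℝ := ‖Ex ^ (q - 2) - 1‖ with hvd
      set K : ℝ := K₁ + ((q - 1 : ℕ) : ℝ) * (K₁ + K₂) with hK
      refine ⟨v / (2 * (|K| + 1)), by positivity, fun τ ρ hρ hρ1 _ T μ ν η hη D => ?_⟩
      have h2 := hB T μ ν τ η D
      have hK0 : 0 ≤ |K| := abs_nonneg _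
      have h3 : η * K ≤ v / 2 := by
        calc η * K ≤ η * |K| := mul_le_mul_of_nonneg_left (le_abs_self _) D.hη
          _ ≤ v / (2 * (|K| + 1)) * ρ * |K| := mul_le_mul_of_nonneg_right hη hK0
          _ ≤ v / (2 * (|K| + 1)) * |K| := by
            apply mul_le_mul_of_nonneg_right _ hK0
            exact mul_le_of_le_one_right (by positivity) hρ1
          _ ≤ v / 2 := by
            rw [div_mul_eq_mul_div, div_le_div_iff₀ (by positivity) (by norm_num)]
            nlinarith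
      linarith

end Pool.Agent.Lib.MP_adb5ad_gt.Hk
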