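import Pool.Agent.Lib.MP_adb5ad_gt.LTBasic
import Pool.Agent.Lib.MP_adb5ad_gt.Hk.Filt

/-!
# MP_adb5ad_gt, package Hk: sparse sets of cells do not contribute
-/

set_option autoImplicit false

open MeasureTheory Filter Topology Set

noncomputable section

namespace Pool.Agent.Lib.MP_adb5ad_gt.Hk

open Pool.Agent.Lib.MP_adb5ad_gt

/-- The union of the unit cells with index in `J`. -/
def cells (J : Set ℕ) : Set ℝ := {s : ℝ | ⌊s⌋₊ ∈ J}

theorem measurableSet_cells (J : Set ℕ) : MeasurableSet (cells J) :=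
  Nat.measurable_floor (MeasurableSet.of_discrete (s := J))

/-- The number of the cells below `X`. -/
def cnt (J : Set ℕ) (X : ℝ) : ℝ := ({j : ℕ | (j : ℝ) < X ∧ j ∈ J}.ncard : ℝ)

theorem sparse_bound (h6 : MeanSquareStmt) (h11 : BoundStmt) {k : ℝ} (hk : 3 / 2 ≤ k)
    {μ ν : Measure ℝ} (hT : ThetaPair k μ ν) : ∃ D : ℝ, 0 ≤ D ∧ ∀ (J : Set ℕ) (X t : ℝ),
    0 < t → t ≤ 1 → t ^ k * ∫ s in cells J, Real.exp (-Real.pi * t * s) ∂μ ≤
      Real.sqrt (D * (t * cnt J X)) + D * Real.exp (-Real.pi * (t * X) / 2) := by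
  obtain ⟨P, hP, hbound⟩ := h11 k μ ν hk hT
  obtain ⟨-, -, -, hP4⟩ := h6 μ hT.neg₁ hT.int₁
  set C₀ := LTr ν 1 with hC₀
  have hC1 : 1 ≤ C₀ := hT.symm.one_le one_pos
  set D : ℝ := max (Real.exp (Real.pi / 4) * P) (C₀ * 2 ^ k) with hD
  have hD1 : Real.exp (Real.pi / 4) * P ≤ D := le_max_left _ _
  have hD2 : C₀ * 2 ^ k ≤ D := le_max_right _ _
  have hD0 : 0 ≤ D := le_trans (by positivity) hD1
  refine ⟨D, hD0, fun J X t ht ht1 => ?_⟩
  set N := Nat.ceil X with hN
  have hNge : X ≤ N := Nat.le_ceil _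
  have hint := LTr_integrable hT.int₁ ht
  have hint2 := LTr_integrable hT.int₁ (half_pos ht)
  set g : ℝ → ℝ := fun s => Real.exp (-Real.pi * t * s) with hg
  classical
  set F : Finset ℕ := {j ∈ Finset.range N | j ∈ J} with hF
  set b : ℕ → ℝ := fun j => ∫ x in Ico (j : ℝ) (j + 1), g x ∂μ with hb
  -- splitting
  have hsplit : ∫ s in cells J, g s ∂μ ≤ ∑ j ∈ F, b j +
      ∫ x in (Ico (0 : ℝ) N)ᶜ, g x ∂μ := by
    have e1 : ∫ s in cells J, g s ∂μ = ∫ s, (cells J).indicator g s ∂μ :=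
      (integral_indicator (measurableSet_cells J)).symm
    have e2 : ∑ j ∈ F, b j + ∫ x in (Ico (0 : ℝ) N)ᶜ, g x ∂μ =
        ∫ s, (∑ j ∈ F, (Ico (j : ℝ) (j + 1)).indicator g s +
          ((Ico (0 : ℝ) N)ᶜ).indicator g s) ∂μ := by
      rw [integral_add (integrable_finsetSum _ fun j _ => hint.indicator measurableSet_Ico)
        (hint.indicator measurableSet_Ico.compl), integral_finsetSum _ fun j _ =>
        hint.indicator measurableSet_Ico, integral_indicator measurableSet_Ico.compl]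
      congr 1
      apply Finset.sum_congr rfl
      intro j _
      rw [integral_indicator measurableSet_Ico]
    rw [e1, e2]
    apply integral_mono (hint.indicator (measurableSet_cells J))
    · exact (integrable_finsetSum _ fun j _ => hint.indicator measurableSet_Ico).add
        (hint.indicator measurableSet_Ico.compl)
    intro s
    have hgs : 0 ≤ g s := (Real.exp_pos _).le
    have hsum0 : 0 ≤ ∑ j ∈ F, (Ico (j : ℝ) (j + 1)).indicator g s :=
      Finset.sum_nonneg fun j _ => indicator_nonneg (fun x _ => (Real.exp_pos _).le) s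
    have hc0 : 0 ≤ ((Ico (0 : ℝ) N)ᶜ).indicator g s :=
      indicator_nonneg (fun x _ => (Real.exp_pos _).le) s
    by_cases hsJ : s ∈ cells J
    · simp only [indicator_of_mem hsJ]
      by_cases hsN : s ∈ Ico (0 : ℝ) N
      · have hfl : ⌊s⌋₊ ∈ F := by
          rw [hF, Finset.mem_filter, Finset.mem_range]
          exact ⟨(Nat.floor_lt hsN.1).2 hsN.2, hsJ⟩
        have h1 : g s ≤ ∑ j ∈ F, (Ico (j : ℝ) (j + 1)).indicator g s := by
          have h2 : (Ico ((⌊s⌋₊ : ℕ) : ℝ) ((⌊s⌋₊ : ℕ) + 1)).indicator g s = g s :=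
            indicator_of_mem (show s ∈ Ico ((⌊s⌋₊ : ℕ) : ℝ) ((⌊s⌋₊ : ℕ) + 1) from
              ⟨Nat.floor_le hsN.1, Nat.lt_floor_add_one s⟩) g
          calc g s = (Ico ((⌊s⌋₊ : ℕ) : ℝ) ((⌊s⌋₊ : ℕ) + 1)).indicator g s := h2.symm
            _ ≤ _ := Finset.single_le_sum (f := fun j : ℕ =>
                (Ico (j : ℝ) (j + 1)).indicator g s)
              (fun j _ => indicator_nonneg (fun x _ => (Real.exp_pos _).le) s) hfl
        linarith
      · have h1 : ((Ico (0 : ℝ) N)ᶜ).indicator g s = g s := indicator_of_mem hsN g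
        linarith
    · simp only [indicator_of_notMem hsJ]
      linarith
  -- the tail
  have htail : t ^ k * ∫ x in (Ico (0 : ℝ) N)ᶜ, g x ∂μ ≤
      D * Real.exp (-Real.pi * (t * X) / 2) := by
    have e2 : ∫ x in (Ico (0 : ℝ) N)ᶜ, g x ∂μ ≤
        ∫ x in (Ico (0 : ℝ) N)ᶜ, Real.exp (-Real.pi * (t * X) / 2) *
          Real.exp (-Real.pi * (t / 2) * x) ∂μ := by
      apply integral_mono_ae hint.integrableOn (hint2.const_mul _).integrableOn
      rw [EventuallyLE, ae_restrict_iff' measurableSet_Ico.compl]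
      filter_upwards [ae_nonneg hT.neg₁] with x hx hxc
      have hxN : (N : ℝ) ≤ x := by
        by_contra hcon
        exact hxc ⟨hx, not_le.1 hcon⟩
      rw [← Real.exp_add]
      apply Real.exp_le_exp.2
      have h1 : t * X ≤ t * x := mul_le_mul_of_nonneg_left (hNge.trans hxN) ht.le
      have h2 : Real.pi * (t * X) ≤ Real.pi * (t * x) :=
        mul_le_mul_of_nonneg_left h1 Real.pi_pos.le
      linarith
    have e3 : ∫ x in (Ico (0 : ℝ) N)ᶜ, Real.exp (-Real.pi * (t * X) / 2) *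
          Real.exp (-Real.pi * (t / 2) * x) ∂μ ≤
        Real.exp (-Real.pi * (t * X) / 2) * LTr μ (t / 2) := by
      rw [integral_const_mul]
      apply mul_le_mul_of_nonneg_left _ (Real.exp_pos _).le
      exact setIntegral_le_integral hint2 (ae_of_all _ fun x => (Real.exp_pos _).le)
    have h1 := hT.LTr_le (half_pos ht) (by linarith)
    have h2 : (t / 2) ^ (-k) = 2 ^ k * t ^ (-k) := by
      rw [Real.div_rpow ht.le (by norm_num), Real.rpow_neg (by norm_num : (0 : ℝ) ≤ 2),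
        div_inv_eq_mul, mul_comm]
    rw [h2] at h1
    have htk : 0 < t ^ k := Real.rpow_pos_of_pos ht k
    have hE : 0 < Real.exp (-Real.pi * (t * X) / 2) := Real.exp_pos _
    calc t ^ k * ∫ x in (Ico (0 : ℝ) N)ᶜ, g x ∂μ
        ≤ t ^ k * (Real.exp (-Real.pi * (t * X) / 2) * (C₀ * (2 ^ k * t ^ (-k)))) :=
          mul_le_mul_of_nonneg_left ((e2.trans e3).trans (mul_le_mul_of_nonneg_left h1 hE.le))
            htk.le
      _ = C₀ * 2 ^ k * Real.exp (-Real.pi * (t * X) / 2) * (t ^ k * t ^ (-k)) := by ring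
      _ = C₀ * 2 ^ k * Real.exp (-Real.pi * (t * X) / 2) := by
          rw [← Real.rpow_add ht, add_neg_cancel, Real.rpow_zero, mul_one]
      _ ≤ D * Real.exp (-Real.pi * (t * X) / 2) := mul_le_mul_of_nonneg_right hD2 hE.le
  -- the main part
  have hsq : ∑ j ∈ F, b j ^ 2 ≤ Real.exp (Real.pi / 4) * (P * t ^ (1 - 2 * k)) := by
    have h1 : ∑ j ∈ F, b j ^ 2 ≤ ∑ j ∈ Finset.range N, b j ^ 2 :=
      Finset.sum_le_sum_of_subset_of_nonneg (Finset.filter_subset _ _) fun _ _ _ => sq_nonneg _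
    refine h1.trans ?_
    have h2 := (hP4 t ht N).trans (mul_le_mul_right (hbound t ht ht1) _)
    rw [← ENNReal.ofReal_mul (Real.exp_pos _).le] at h2
    exact (ENNReal.ofReal_le_ofReal_iff (by positivity)).1 h2
  have hCS : (∑ j ∈ F, b j) ^ 2 ≤ F.card * ∑ j ∈ F, b j ^ 2 := sq_sum_le_card_mul_sum_sq
  have hcard : (F.card : ℝ) = cnt J X := by
    unfold cnt
    have : ((F : Finset ℕ) : Set ℕ) = {j : ℕ | (j : ℝ) < X ∧ j ∈ J} := by
      ext j
      rw [hF]
      simp only [Finset.coe_filter, Finset.mem_range, mem_ofPred_eq, hN, Nat.lt_ceil]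
    rw [← this, Set.ncard_coe_finset]
  have hmain : t ^ k * ∑ j ∈ F, b j ≤ Real.sqrt (D * (t * cnt J X)) := by
    apply Real.le_sqrt_of_sq_le
    have h1 : (t ^ k * ∑ j ∈ F, b j) ^ 2 ≤
        (t ^ k) ^ 2 * (F.card * (Real.exp (Real.pi / 4) * (P * t ^ (1 - 2 * k)))) := by
      rw [mul_pow]
      apply mul_le_mul_of_nonneg_left _ (sq_nonneg _)
      exact hCS.trans (mul_le_mul_of_nonneg_left hsq (Nat.cast_nonneg _))
    refine h1.trans ?_
    have h2 : (t ^ k) ^ 2 * t ^ (1 - 2 * k) = t := by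
      rw [← Real.rpow_natCast (t ^ k) 2, ← Real.rpow_mul ht.le, ← Real.rpow_add ht]
      have : k * ((2 : ℕ) : ℝ) + (1 - 2 * k) = 1 := by
        push_cast
        ring
      rw [this, Real.rpow_one]
    calc (t ^ k) ^ 2 * (F.card * (Real.exp (Real.pi / 4) * (P * t ^ (1 - 2 * k))))
        = Real.exp (Real.pi / 4) * P * (((t ^ k) ^ 2 * t ^ (1 - 2 * k)) * F.card) := by ring
      _ = Real.exp (Real.pi / 4) * P * (t * cnt J X) := by rw [h2, hcard]
      _ ≤ D * (t * cnt J X) := by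
          apply mul_le_mul_of_nonneg_right hD1
          exact mul_nonneg ht.le (Nat.cast_nonneg _)
  have htk : 0 < t ^ k := Real.rpow_pos_of_pos ht k
  have h3 := mul_le_mul_of_nonneg_left hsplit htk.le
  rw [mul_add] at h3
  linarith

/-- A sequence of heights at which a set of cells of vanishing lower density is negligible. -/
theorem sparse_seq {J : Set ℕ}
    (hJ : ¬ ∃ κ X₀ : ℝ, 0 < κ ∧ ∀ X : ℝ, X₀ ≤ X → κ * X ≤ cnt J X) :
    ∃ T : Filter ℝ, Hts T ∧ ∀ (_ : MeanSquareStmt) (_ : BoundStmt) (k : ℝ) (_ : 3 / 2 ≤ k)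
      (μ ν : Measure ℝ) (_ : ThetaPair k μ ν),
      Tendsto (fun t : ℝ => t ^ k * ∫ s in cells (insert 0 J),
        Real.exp (-Real.pi * t * s) ∂μ) T (𝓝 0) := by
  have hpi := Real.pi_pos
  push Not at hJ
  choose X hX1 hX2 using fun i : ℕ =>
    hJ (1 / ((i : ℝ) + 1) ^ 2) (((i : ℝ) + 1) ^ 2) (by positivity)
  have hi : ∀ i : ℕ, (1 : ℝ) ≤ (i : ℝ) + 1 := fun i => by
    have : (0 : ℝ) ≤ i := Nat.cast_nonneg i
    linarith
  have hXpos : ∀ i, 0 < X i := fun i => lt_of_lt_of_le (by positivity) (hX1 i)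
  have hcnt : ∀ i, cnt (insert 0 J) (X i) ≤ 2 * X i / ((i : ℝ) + 1) ^ 2 := by
    intro i
    have hfin : {j : ℕ | (j : ℝ) < X i ∧ j ∈ J}.Finite := by
      apply (Set.finite_lt_nat (Nat.ceil (X i))).subset
      intro j hj
      exact Nat.lt_ceil.2 hj.1
    have h1 : {j : ℕ | (j : ℝ) < X i ∧ j ∈ insert 0 J} ⊆
        insert 0 {j : ℕ | (j : ℝ) < X i ∧ j ∈ J} := by
      rintro j ⟨hj1, hj2 | hj2⟩
      · left
        exact hj2
      · right
        exact ⟨hj1, hj2⟩
    have h2 := (Set.ncard_le_ncard h1 (hfin.insert 0)).trans (Set.ncard_insert_le _ _)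
    have h3 : cnt (insert 0 J) (X i) ≤ cnt J (X i) + 1 := by
      unfold cnt
      exact_mod_cast h2
    have h4 : (1 : ℝ) ≤ X i / ((i : ℝ) + 1) ^ 2 := by
      rw [le_div_iff₀ (by positivity), one_mul]
      exact hX1 i
    have h5 : 1 / ((i : ℝ) + 1) ^ 2 * X i = X i / ((i : ℝ) + 1) ^ 2 := by ring
    have h6 := (hX2 i).le
    rw [h5] at h6
    have h7 : 2 * X i / ((i : ℝ) + 1) ^ 2 = X i / ((i : ℝ) + 1) ^ 2 +
      X i / ((i : ℝ) + 1) ^ 2 := by ring
    rw [h7]
    linarith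
  set u : ℕ → ℝ := fun i => ((i : ℝ) + 1) / X i with hu
  have hupos : ∀ i, 0 < u i := fun i => div_pos (by linarith [hi i]) (hXpos i)
  have hinv : Tendsto (fun i : ℕ => 1 / ((i : ℝ) + 1)) atTop (𝓝 0) :=
    tendsto_one_div_add_atTop_nhds_zero_nat
  have hu0 : Tendsto u atTop (𝓝 0) := by
    refine tendsto_of_tendsto_of_tendsto_of_le_of_le tendsto_const_nhds hinv
      (fun i => (hupos i).le) (fun i => ?_)
    simp only [hu]
    rw [div_le_div_iff₀ (hXpos i) (by linarith [hi i])]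
    nlinarith [hX1 i]
  refine ⟨seqF u, hts_seqF hupos hu0, fun h6 h11 k hk μ ν hT => ?_⟩
  obtain ⟨D, hD0, hD⟩ := sparse_bound h6 h11 hk hT
  rw [Metric.tendsto_nhds]
  intro ε hε
  change {t : ℝ | dist _ _ < ε} ∈ seqF u
  rw [mem_seqF]
  intro c C hc hC
  have hC0 : 0 < C := hc.trans_le hC
  have l1 : Tendsto (fun i : ℕ => Real.sqrt (2 * D * C * (1 / ((i : ℝ) + 1))) +
      D * Real.exp (-(Real.pi * c / 2) * ((i : ℝ) + 1))) atTop (𝓝 (Real.sqrt (2 * D * C * 0) +
      D * 0)) := by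
    refine Tendsto.add ?_ (Tendsto.const_mul _ ?_)
    · exact (Real.continuous_sqrt.tendsto _).comp (hinv.const_mul _)
    · refine Real.tendsto_exp_atBot.comp ?_
      refine Tendsto.const_mul_atTop_of_neg (by
        have : 0 < Real.pi * c / 2 := by positivity
        linarith) ?_
      exact tendsto_atTop_add_const_right _ _ tendsto_natCast_atTop_atTop
  have l2 : Real.sqrt (2 * D * C * 0) + D * 0 = 0 := by simp
  rw [l2] at l1
  have l3 : Tendsto (fun i => C * u i) atTop (𝓝 (C * 0)) := hu0.const_mul C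
  rw [mul_zero] at l3
  filter_upwards [l1.eventually (gt_mem_nhds hε), l3.eventually (gt_mem_nhds one_pos)]
    with i hi1 hi2
  intro t ht
  have ht0 : 0 < t := lt_of_lt_of_le (mul_pos hc (hupos i)) ht.1
  have ht1 : t ≤ 1 := ht.2.trans hi2.le
  have h1 := hD (insert 0 J) (X i) t ht0 ht1
  have h2 : 0 ≤ t ^ k * ∫ s in cells (insert 0 J), Real.exp (-Real.pi * t * s) ∂μ :=
    mul_nonneg (Real.rpow_nonneg ht0.le k) (integral_nonneg fun s => (Real.exp_pos _).le)
  have hipos : (0 : ℝ) < (i : ℝ) + 1 := by linarith [hi i]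
  have h3 : D * (t * cnt (insert 0 J) (X i)) ≤ 2 * D * C * (1 / ((i : ℝ) + 1)) := by
    have h4 : t * cnt (insert 0 J) (X i) ≤ C * u i * (2 * X i / ((i : ℝ) + 1) ^ 2) :=
      mul_le_mul ht.2 (hcnt i) (Nat.cast_nonneg _) (by have := hupos i; positivity)
    have h5 : C * u i * (2 * X i / ((i : ℝ) + 1) ^ 2) = 2 * C * (1 / ((i : ℝ) + 1)) := by
      simp only [hu]
      have := (hXpos i).ne'
      field_simp
    rw [h5] at h4
    have h6 := mul_le_mul_of_nonneg_left h4 hD0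
    linarith
  have h4 : Real.exp (-Real.pi * (t * X i) / 2) ≤
      Real.exp (-(Real.pi * c / 2) * ((i : ℝ) + 1)) := by
    apply Real.exp_le_exp.2
    have h5 : c * ((i : ℝ) + 1) ≤ t * X i := by
      have h6 : c * u i * X i = c * ((i : ℝ) + 1) := by
        simp only [hu]
        have := (hXpos i).ne'
        field_simp
      rw [← h6]
      exact mul_le_mul_of_nonneg_right ht.1 (hXpos i).le
    have h7 := mul_le_mul_of_nonneg_left h5 hpi.le
    linarith
  have h5 := Real.sqrt_le_sqrt h3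
  have h6 := mul_le_mul_of_nonneg_left h4 hD0
  rw [mem_ofPred_eq, Real.dist_eq, sub_zero, abs_of_nonneg h2]
  linarith

end Pool.Agent.Lib.MP_adb5ad_gt.Hk
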