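import Pool.Agent.Lib.MP_adb5ad_gt.CFinal
import Pool.Agent.Lib.MP_adb5ad_gt.W.Final
import Pool.Agent.Lib.MP_adb5ad_gt.Hk.Hecke
import Pool.Agent.Lib.MP_adb5ad_gt.Hk.Sparse

/-!
# MP_adb5ad_gt, package Hk: application to optimal functions
-/

set_option autoImplicit false

open MeasureTheory Filter Topology Set

noncomputable section

namespace Pool.Agent.Lib.MP_adb5ad_gt.Hk

open Pool.Agent.Lib.MP_adb5ad_gt Pool.Agent.Lib.MP_adb5ad_gt.W

/-- Decay of the Laplace transform of a measure on `[a, ∞)`. -/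
theorem LTr_decay {m : Measure ℝ} {a : ℝ} (hm : m (Iio a) = 0)
    (hm2 : ∀ t : ℝ, 0 < t → Integrable (fun x => Real.exp (-t * x)) m) {t : ℝ} (ht : 1 ≤ t) :
    LTr m t ≤ LTr m 1 * Real.exp (-(Real.pi * a) * (t - 1)) := by
  have hpi := Real.pi_pos
  unfold LTr
  rw [← integral_mul_const]
  refine integral_mono_ae (LTr_integrable hm2 (by linarith))
    ((LTr_integrable hm2 one_pos).mul_const _) ?_
  have h1 : ∀ᵐ s ∂m, a ≤ s := by
    rw [ae_iff]
    simp only [not_le]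
    exact hm
  filter_upwards [h1] with s hs
  rw [← Real.exp_add]
  apply Real.exp_le_exp.2
  have h2 : 0 ≤ Real.pi * (t - 1) := mul_nonneg hpi.le (by linarith)
  have h3 := mul_le_mul_of_nonneg_left hs h2
  linarith

theorem LTr_tendsto {m : Measure ℝ} {a : ℝ} (ha : 0 < a) (hm : m (Iio a) = 0)
    (hm2 : ∀ t : ℝ, 0 < t → Integrable (fun x => Real.exp (-t * x)) m) :
    Tendsto (LTr m) atTop (𝓝 0) := by
  have hpi := Real.pi_pos
  have h1 : Tendsto (fun t : ℝ => LTr m 1 * Real.exp (-(Real.pi * a) * (t - 1))) atTop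
      (𝓝 (LTr m 1 * 0)) := by
    refine Tendsto.const_mul _ (Real.tendsto_exp_atBot.comp ?_)
    refine Tendsto.const_mul_atTop_of_neg (by
      have : 0 < Real.pi * a := by positivity
      linarith) ?_
    exact tendsto_atTop_add_const_right _ _ tendsto_id
  rw [mul_zero] at h1
  refine tendsto_of_tendsto_of_tendsto_of_le_of_le' tendsto_const_nhds h1
    (Eventually.of_forall fun t => LTr_nonneg m t) ?_
  filter_upwards [eventually_ge_atTop 1] with t ht
  exact LTr_decay hm hm2 ht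

theorem one_add {m : Measure ℝ} {a : ℝ} (ha : 0 < a) (hm : m (Iio a) = 0)
    (hm2 : ∀ t : ℝ, 0 < t → Integrable (fun x => Real.exp (-t * x)) m) :
    Tendsto (LT (Measure.dirac 0 + m)) (comap Complex.re atTop) (𝓝 1) ∧
      Tendsto (LTr (Measure.dirac 0 + m)) atTop (𝓝 1) := by
  have h0 := LTr_tendsto ha hm hm2
  constructor
  · have h1 : Tendsto (LT m) (comap Complex.re atTop) (𝓝 0) := by
      rw [tendsto_zero_iff_norm_tendsto_zero]
      refine tendsto_of_tendsto_of_tendsto_of_le_of_le tendsto_const_nhds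
        (h0.comp tendsto_comap) (fun z => norm_nonneg _) (fun z => norm_LT_le' m z)
    have h2 : Tendsto (fun z => 1 + LT m z) (comap Complex.re atTop) (𝓝 (1 + 0)) :=
      h1.const_add 1
    rw [add_zero] at h2
    refine h2.congr' ?_
    have h3 : ∀ᶠ z in comap Complex.re atTop, 0 < z.re :=
      tendsto_comap.eventually (eventually_gt_atTop 0)
    filter_upwards [h3] with z hz
    exact (LT_dirac_add hm2 hz).symm
  · have h2 : Tendsto (fun t => 1 + LTr m t) atTop (𝓝 (1 + 0)) := h0.const_add 1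
    rw [add_zero] at h2
    refine h2.congr' ?_
    filter_upwards [eventually_gt_atTop 0] with t ht
    unfold LTr
    rw [integral_add_measure (integrable_dirac (by simp)) (LTr_integrable hm2 ht),
      integral_dirac]
    simp

/-- Points close to the progression have almost the same phase. -/
theorem phase {lam δ s : ℝ} (hlam : 0 < lam) {j : ℤ} {ε : ℝ} (h : |s - δ - lam * j| ≤ ε) :
    ‖Complex.exp (-(Real.pi : ℂ) * (((2 / lam : ℝ) : ℂ) * Complex.I) * s) -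
      Complex.exp (-(Real.pi : ℂ) * (((2 / lam : ℝ) : ℂ) * Complex.I) * δ)‖ ≤
      Real.pi * (2 / lam) * ε := by
  have hpi := Real.pi_pos
  set r : ℝ := s - δ - lam * j with hr
  have e1 : -(Real.pi : ℂ) * (((2 / lam : ℝ) : ℂ) * Complex.I) * s =
      -(Real.pi : ℂ) * (((2 / lam : ℝ) : ℂ) * Complex.I) * δ +
        (((-j : ℤ) : ℂ) * (2 * Real.pi * Complex.I) +
          Complex.I * ((-(Real.pi * (2 / lam)) * r : ℝ) : ℂ)) := by
    have hs' : (s : ℂ) = δ + lam * j + r := by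
      rw [hr]
      push_cast
      ring
    have hl : (lam : ℂ) ≠ 0 := by exact_mod_cast hlam.ne'
    rw [hs']
    push_cast
    field_simp
    ring
  rw [e1, Complex.exp_add, Complex.exp_add, Complex.exp_int_mul_two_pi_mul_I, one_mul]
  have e2 : ∀ A B : ℂ, A * B - A = A * (B - 1) := fun A B => by ring
  have e3 : ‖Complex.exp (-(Real.pi : ℂ) * (((2 / lam : ℝ) : ℂ) * Complex.I) * δ)‖ = 1 := by
    rw [Complex.norm_exp]
    simp
  rw [e2, norm_mul, e3, one_mul]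
  refine Real.norm_exp_I_mul_ofReal_sub_one_le.trans ?_
  rw [Real.norm_eq_abs, abs_mul, abs_neg, abs_of_pos (by positivity)]
  exact mul_le_mul_of_nonneg_left h (by positivity)

/-- The approximate period of one of the two measures. -/
theorem tc_of {T : Filter ℝ} {k : ℝ} {m : Measure ℝ} {lam δ ε : ℝ} (hlam : 0 < lam) {J : Set ℕ}
    (hG : Tendsto (fun t : ℝ => t ^ k * ∫ s in cells (insert 0 J),
        Real.exp (-Real.pi * t * s) ∂(Measure.dirac 0 + m)) T (𝓝 0))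
    (h : ∀ᵐ s ∂m, 0 ≤ s ∧ (⌊s⌋₊ ≠ 0 → ⌊s⌋₊ ∉ J → ∃ j : ℤ, |s - δ - lam * j| ≤ ε)) :
    Tc T k (Measure.dirac 0 + m) (2 / lam)
      (Complex.exp (-(Real.pi : ℂ) * (((2 / lam : ℝ) : ℂ) * Complex.I) * δ))
      (Real.pi * (2 / lam) * ε) := by
  refine ⟨cells (insert 0 J), measurableSet_cells _, hG, ?_⟩
  rw [ae_add_measure_iff]
  constructor
  · rw [ae_dirac_eq, eventually_pure]
    intro h1
    exfalso
    apply h1
    left
    exact Nat.floor_zero
  · filter_upwards [h] with s hs hsA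
    have h1 : ⌊s⌋₊ ≠ 0 := fun h0 => hsA (Or.inl h0)
    have h2 : ⌊s⌋₊ ∉ J := fun h0 => hsA (Or.inr h0)
    obtain ⟨j, hj⟩ := hs.2 h1 h2
    exact phase hlam hj

/-- The set of the unit cells which contain the square of a deviating common radius. -/
def dev (d : ℕ) (α lam δ ε : ℝ) : Set ℕ :=
  {j : ℕ | ∃ x : E d, x ≠ 0 ∧ (j : ℝ) ≤ ‖x‖ ^ 2 ∧ ‖x‖ ^ 2 < j + 1 ∧
    ((∀ f : E d → ℝ, Attains d α f → f x = Real.exp (-α * ‖x‖ ^ 2)) ∨
      (∀ f : E d → ℝ, Attains d α f → ft f x = 0)) ∧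
    ∀ i : ℤ, ε < |‖x‖ ^ 2 - δ - lam * i|}

/-- The phase of a number away from the multiples of `lam`. -/
theorem phase_ge {lam δ ρ : ℝ} (hlam : 0 < lam) (h : ∀ j : ℤ, ρ ≤ |δ - lam * j|) :
    4 / lam * ρ ≤
      ‖Complex.exp (-(Real.pi : ℂ) * (((2 / lam : ℝ) : ℂ) * Complex.I) * δ) - 1‖ := by
  have hpi := Real.pi_pos
  set n : ℤ := round (δ / lam) with hn
  set r : ℝ := δ / lam - n with hr
  have hr1 : |r| ≤ 1 / 2 := abs_sub_round _
  have e0 : δ = lam * n + lam * r := by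
    rw [hr]
    field_simp
    ring
  have e1 : -(Real.pi : ℂ) * (((2 / lam : ℝ) : ℂ) * Complex.I) * δ =
      ((-n : ℤ) : ℂ) * (2 * Real.pi * Complex.I) +
        Complex.I * ((-(2 * (Real.pi * r)) : ℝ) : ℂ) := by
    have hs' : (δ : ℂ) = lam * n + lam * r := by
      exact_mod_cast e0
    have hl : (lam : ℂ) ≠ 0 := by exact_mod_cast hlam.ne'
    rw [hs']
    push_cast
    field_simp
    ring
  rw [e1, Complex.exp_add, Complex.exp_int_mul_two_pi_mul_I, one_mul,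
    Complex.norm_exp_I_mul_ofReal_sub_one]
  have e2 : -(2 * (Real.pi * r)) / 2 = -(Real.pi * r) := by ring
  rw [e2, Real.sin_neg, Real.norm_eq_abs, abs_mul, abs_neg, abs_of_pos (by norm_num : (0:ℝ) < 2)]
  have h1 : |Real.sin (Real.pi * r)| = Real.sin (Real.pi * |r|) := by
    have h2 : 0 ≤ Real.sin (Real.pi * |r|) := by
      apply Real.sin_nonneg_of_nonneg_of_le_pi (by positivity)
      nlinarith
    rcases abs_choice r with h3 | h3
    · rw [h3] at h2 ⊢
      exact abs_of_nonneg h2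
    · rw [h3] at h2 ⊢
      rw [mul_neg, Real.sin_neg] at h2 ⊢
      exact abs_of_nonpos (by linarith)
  have h2 : 2 / Real.pi * (Real.pi * |r|) ≤ Real.sin (Real.pi * |r|) := by
    apply Real.mul_le_sin (by positivity)
    nlinarith
  have h3 : 2 / Real.pi * (Real.pi * |r|) = 2 * |r| := by
    field_simp
  rw [h3] at h2
  have h4 : ρ ≤ lam * |r| := by
    have h5 := h n
    have h6 : δ - lam * n = lam * r := by linarith
    rw [h6, abs_mul, abs_of_pos hlam] at h5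
    exact h5
  have h5 : 4 / lam * ρ ≤ 4 * |r| := by
    rw [div_mul_eq_mul_div, div_le_iff₀ hlam]
    linarith
  rw [h1]
  linarith

/-- **Deviation of the common radii from arithmetic progressions.** -/
theorem deviate (hVal : S_Val) (hRad : S_Rad) (hGen : S_Gen) (hDM : S_DM)
    (h6 : MeanSquareStmt) (h11 : BoundStmt) (d : ℕ) (hd : 3 ≤ d) (lam : ℝ) (hlam : 1 < lam) :
    ∃ c : ℝ, 0 < c ∧ ∀ δ ρ : ℝ, 0 < ρ → ρ ≤ 1 →
      ((∃ q : ℕ, 3 ≤ q ∧ lam * Real.cos (Real.pi / q) = 1 ∧ 8 ∣ d * (q - 2)) →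
        ∀ j : ℤ, ρ ≤ |δ - lam * j|) →
      ∀ α : ℝ, 0 < α → ∃ κ X₀ : ℝ, 0 < κ ∧ ∀ X : ℝ, X₀ ≤ X →
        κ * X ≤ cnt (dev d α lam δ (c * ρ)) X := by
  have hpi := Real.pi_pos
  have hl0 : 0 < lam := by linarith
  have hd3 : (3 : ℝ) ≤ d := by exact_mod_cast hd
  have hd1 : 1 ≤ d := by omega
  obtain ⟨c₀, hc₀, hH⟩ := hecke (k := (d : ℝ) / 2) (x := 2 / lam) (by positivity)
    (by positivity) (by
      rw [div_lt_iff₀ hl0]
      linarith)
  set M : ℝ := min 1 (4 / lam) with hM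
  have hM0 : 0 < M := lt_min one_pos (by positivity)
  refine ⟨c₀ * M / (Real.pi * (2 / lam)), by positivity, fun δ ρ hρ hρ1 hq α hα => ?_⟩
  set τ : ℂ := Complex.exp (-(Real.pi : ℂ) * (((2 / lam : ℝ) : ℂ) * Complex.I) * δ) with hτ
  have hM1 : M * ρ ≤ 1 := by
    calc M * ρ ≤ 1 * 1 := mul_le_mul (min_le_left _ _) hρ1 hρ.le zero_le_one
      _ = 1 := one_mul 1
  have hH' := hH τ (M * ρ) (by positivity) hM1 (by
    rintro ⟨q, hq3, hx, j, hj⟩
    have h0 : lam * Real.cos (Real.pi / q) = 1 := by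
      have h1 : Real.cos (Real.pi / q) = 1 / lam := by
        have : 2 * Real.cos (Real.pi / q) = 2 * (1 / lam) := by rw [← hx]; ring
        linarith
      rw [h1]
      field_simp
    have h5 : 8 ∣ d * (q - 2) := by
      have h1 : (d : ℝ) * ((q : ℝ) - 2) = 8 * j := by linarith
      have h2 : ((d * (q - 2) : ℕ) : ℤ) = 8 * j := by
        have h3 : (((d * (q - 2) : ℕ) : ℤ) : ℝ) = ((8 * j : ℤ) : ℝ) := by
          push_cast [Nat.cast_sub (by omega : 2 ≤ q)]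
          exact h1
        exact_mod_cast h3
      have h4 : (8 : ℤ) ∣ ((d * (q - 2) : ℕ) : ℤ) := ⟨j, h2⟩
      exact_mod_cast h4
    have h6 := phase_ge hl0 (hq ⟨q, hq3, h0, h5⟩)
    refine le_trans ?_ h6
    exact mul_le_mul_of_nonneg_right (min_le_right _ _) hρ.le)
  set ε : ℝ := c₀ * M / (Real.pi * (2 / lam)) * ρ with hε
  have hεη : Real.pi * (2 / lam) * ε = c₀ * (M * ρ) := by
    rw [hε]
    field_simp
  by_contra hcon
  obtain ⟨T, hT, hS⟩ := sparse_seq hcon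
  obtain ⟨f₀, hf₀, -⟩ := hRad d α hd1 hα
  obtain ⟨F, hF, hFg⟩ := hGen d α hd1 hα ⟨f₀, hf₀⟩
  obtain ⟨m, n, a, ha, hm, hn, hm2, hn2, hfe, -, hTm, hZn⟩ := hDM d α F hd1 hα hF
  have hTP : ThetaPair ((d : ℝ) / 2) (Measure.dirac 0 + m) (Measure.dirac 0 + n) := by
    apply thetaPair_of ha hm hn hm2 hn2
    intro z hz
    rw [hfe z hz]
    push_cast
    rfl
  have hk : (3 : ℝ) / 2 ≤ (d : ℝ) / 2 := by linarith
  have g₁ := hS h6 h11 _ hk _ _ hTP
  have g₂ := hS h6 h11 _ hk _ _ hTP.symm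
  obtain ⟨o₁, r₁⟩ := one_add ha hm hm2
  obtain ⟨o₂, r₂⟩ := one_add ha hn hn2
  have key : ∀ x : E d, ((∀ f : E d → ℝ, Attains d α f → f x = Real.exp (-α * ‖x‖ ^ 2)) ∨
      (∀ f : E d → ℝ, Attains d α f → ft f x = 0)) → ⌊‖x‖ ^ 2⌋₊ ≠ 0 →
      ⌊‖x‖ ^ 2⌋₊ ∉ dev d α lam δ ε → ∃ j : ℤ, |‖x‖ ^ 2 - δ - lam * j| ≤ ε := by
    intro x hx h0 h1
    by_contra hno'
    push Not at hno'
    apply h1
    refine ⟨x, ?_, Nat.floor_le (by positivity), Nat.lt_floor_add_one _, hx, hno'⟩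
    rintro rfl
    apply h0
    simp
  refine hH' T (Measure.dirac 0 + m) (Measure.dirac 0 + n) (c₀ * (M * ρ)) le_rfl
    ⟨hT, hTP, by rw [hτ, Complex.norm_exp]; simp, by positivity, ?_, ?_, o₁, o₂, r₁, r₂⟩
  · rw [← hεη]
    refine tc_of hl0 g₁ ?_
    have h1 : ∀ᵐ s ∂m, ¬ ∀ x : E d, ‖x‖ ^ 2 = s → F x ≠ Real.exp (-α * ‖x‖ ^ 2) := by
      rw [ae_iff]
      simpa only [not_not] using hTm
    filter_upwards [h1] with s hs
    push Not at hs
    obtain ⟨x, hx, hFx⟩ := hs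
    rw [← hx]
    refine ⟨by positivity, fun h0 hJ => key x (Or.inl fun f hf =>
      (hFg f ((attains_iff hVal hd1 hα f).1 hf)).1 x hFx) h0 hJ⟩
  · rw [← hεη]
    refine tc_of hl0 g₂ ?_
    have h1 : ∀ᵐ s ∂n, ¬ ∀ x : E d, ‖x‖ ^ 2 = s → ft F x ≠ 0 := by
      rw [ae_iff]
      simpa only [not_not] using hZn
    filter_upwards [h1] with s hs
    push Not at hs
    obtain ⟨x, hx, hFx⟩ := hs
    rw [← hx]
    refine ⟨by positivity, fun h0 hJ => key x (Or.inr fun f hf =>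
      (hFg f ((attains_iff hVal hd1 hα f).1 hf)).2 x hFx) h0 hJ⟩

end Pool.Agent.Lib.MP_adb5ad_gt.Hk
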