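import Pool.Agent.Lib.MP_adb5ad_gt.Hk.Asym

/-!
# MP_adb5ad_gt, package Hk: paths of approximate asymptotic values
-/

set_option autoImplicit false

open MeasureTheory Filter Topology Set

noncomputable section

namespace Pool.Agent.Lib.MP_adb5ad_gt.Hk

open Pool.Agent.Lib.MP_adb5ad_gt

/-- The data: a theta pair both of whose members are approximately quasi-periodic at the heights
of the filter `T`. -/
structure Data (T : Filter ℝ) (k : ℝ) (μ ν : Measure ℝ) (x : ℝ) (τ : ℂ) (η : ℝ) : Prop where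
  hT : Hts T
  tp : ThetaPair k μ ν
  hτ : ‖τ‖ = 1
  hη : 0 ≤ η
  T₁ : Tc T k μ x τ η
  T₂ : Tc T k ν x τ η
  o₁ : Tendsto (LT μ) (comap Complex.re atTop) (𝓝 1)
  o₂ : Tendsto (LT ν) (comap Complex.re atTop) (𝓝 1)
  r₁ : Tendsto (LTr μ) atTop (𝓝 1)
  r₂ : Tendsto (LTr ν) atTop (𝓝 1)

/-- Common approximate asymptotic value of the two measures. -/
def As2 (T : Filter ℝ) (k : ℝ) (μ ν : Measure ℝ) (y : ℝ) (c : ℂ) (e : ℝ) : Prop :=
  As T k μ y c e ∧ As T k ν y c e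

theorem mult_pos {k y : ℝ} (hy : 0 < y) :
    mult k y = ((y ^ (-k) : ℝ) : ℂ) * Complex.exp (Real.pi * k / 2 * Complex.I) := by
  have h1 : ((-(1 / y) : ℝ) * Complex.I : ℂ) = ((1 / y : ℝ) : ℂ) * (-Complex.I) := by
    push_cast
    ring
  have hy' : 0 < 1 / y := by positivity
  have hI : -Complex.I ≠ 0 := neg_ne_zero.2 Complex.I_ne_zero
  have h2 : (((-(1 / y)) ^ 2 : ℝ) ^ k : ℝ) = Real.exp (-(2 * k * Real.log y)) := by
    rw [neg_sq, Real.rpow_def_of_pos (by positivity), Real.log_pow, one_div, Real.log_inv]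
    congr 1
    push_cast
    ring
  unfold mult
  rw [h1, h2, Complex.cpow_def_of_ne_zero (mul_ne_zero (by exact_mod_cast hy'.ne') hI),
    Complex.log_ofReal_mul hy' hI, Complex.log_neg_I, Real.rpow_def_of_pos hy, one_div,
    Real.log_inv, Complex.ofReal_exp, Complex.ofReal_exp, ← Complex.exp_add, ← Complex.exp_add]
  congr 1
  push_cast
  ring

theorem mult_neg {k y : ℝ} (hy : y < 0) :
    mult k y = (((-y) ^ (-k) : ℝ) : ℂ) * Complex.exp (-(Real.pi * k / 2 * Complex.I)) := by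
  have h1 : ((-(1 / y) : ℝ) * Complex.I : ℂ) = ((1 / (-y) : ℝ) : ℂ) * Complex.I := by
    push_cast
    ring
  have hny : 0 < -y := by linarith
  have hy' : 0 < 1 / (-y) := by positivity
  have h2 : (((-(1 / y)) ^ 2 : ℝ) ^ k : ℝ) = Real.exp (-(2 * k * Real.log (-y))) := by
    have e : -(1 / y) = (-y)⁻¹ := by
      rw [one_div, neg_inv]
    rw [e, Real.rpow_def_of_pos (by positivity), Real.log_pow, Real.log_inv]
    congr 1
    push_cast
    ring
  unfold mult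
  rw [h1, h2, Complex.cpow_def_of_ne_zero (mul_ne_zero (by exact_mod_cast hy'.ne')
    Complex.I_ne_zero), Complex.log_ofReal_mul hy' Complex.I_ne_zero, Complex.log_I,
    Real.rpow_def_of_pos hny, one_div, Real.log_inv, Complex.ofReal_exp, Complex.ofReal_exp,
    ← Complex.exp_add, ← Complex.exp_add]
  congr 1
  push_cast
  ring

theorem norm_E (k : ℝ) : ‖Complex.exp (Real.pi * k / 2 * Complex.I)‖ = 1 := by
  have := Complex.norm_exp_ofReal_mul_I (Real.pi * k / 2)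
  push_cast at this
  exact this

theorem norm_mult_pos {k y : ℝ} (hy : 0 < y) : ‖mult k y‖ = y ^ (-k) := by
  rw [mult_pos hy, norm_mul, norm_E, mul_one, Complex.norm_real,
    Real.norm_of_nonneg (Real.rpow_nonneg hy.le _)]

variable {T : Filter ℝ} {k : ℝ} {μ ν : Measure ℝ} {x : ℝ} {τ : ℂ} {η : ℝ}

theorem Data.zero (D : Data T k μ ν x τ η) : As2 T k μ ν 0 1 0 :=
  ⟨as_zero D.hT D.tp D.o₂, as_zero D.hT D.tp.symm D.o₁⟩

theorem Data.shift (D : Data T k μ ν x τ η) {y : ℝ} {c : ℂ} {e : ℝ} (h : As2 T k μ ν y c e) :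
    As2 T k μ ν (y + x) (τ * c) (e + η) :=
  ⟨As.shift D.hT D.tp D.r₂ D.hτ D.hη D.T₁ h.1,
    As.shift D.hT D.tp.symm D.r₁ D.hτ D.hη D.T₂ h.2⟩

theorem Data.step (D : Data T k μ ν x τ η) {y : ℝ} (hy : y ≠ 0) {c : ℂ} {e : ℝ}
    (h : As2 T k μ ν y c e) :
    As2 T k μ ν (x - 1 / y) (τ * (mult k y * c)) (‖mult k y‖ * e + η) := by
  have h1 : As2 T k μ ν (-(1 / y)) (mult k y * c) (‖mult k y‖ * e) :=
    ⟨As.inv D.hT D.tp hy h.2, As.inv D.hT D.tp.symm hy h.1⟩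
  have h2 := D.shift h1
  have e : -(1 / y) + x = x - 1 / y := by ring
  rwa [e] at h2

theorem Data.norm_le (D : Data T k μ ν x τ η) {y : ℝ} {c : ℂ} {e : ℝ}
    (h : As2 T k μ ν y c e) : ‖c‖ ≤ 1 + e :=
  As.norm_le D.hT D.tp D.r₂ h.1

theorem Data.uniq (D : Data T k μ ν x τ η) {y : ℝ} {c c' : ℂ} {e e' : ℝ}
    (h : As2 T k μ ν y c e) (h' : As2 T k μ ν y c' e') : ‖c - c'‖ ≤ e + e' :=
  As.unique D.hT h.1 h'.1

/-- The constants of the errors. -/
def Kp (k : ℝ) (W : ℕ → ℝ) (K₀ : ℝ) : ℕ → ℝ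
  | 0 => K₀
  | n + 1 => (W (n + 1) / W n) ^ (-k) * Kp k W K₀ n + 1

/-- The path. -/
theorem Data.path (D : Data T k μ ν x τ η) {W : ℕ → ℝ} (h0 : W 0 = 1)
    (hrec : ∀ n, W (n + 2) = x * W (n + 1) - W n) {c₀ : ℂ} {K₀ : ℝ}
    (h1 : As2 T k μ ν (W 1) c₀ (η * K₀)) :
    ∀ n : ℕ, (∀ j, j ≤ n → 0 < W j) → As2 T k μ ν (W (n + 1) / W n)
      (c₀ * τ ^ n * Complex.exp (Real.pi * k / 2 * Complex.I) ^ n * ((W n ^ (-k) : ℝ) : ℂ))
      (η * Kp k W K₀ n) := by
  intro n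
  induction n with
  | zero =>
    intro _
    simpa [h0, Kp] using h1
  | succ n ih =>
    intro hW
    have hn : 0 < W n := hW n (by omega)
    have hn1 : 0 < W (n + 1) := hW (n + 1) le_rfl
    have h2 := ih fun j hj => hW j (by omega)
    have hy : 0 < W (n + 1) / W n := div_pos hn1 hn
    have h3 := D.step hy.ne' h2
    have e1 : x - 1 / (W (n + 1) / W n) = W (n + 1 + 1) / W (n + 1) := by
      rw [show n + 1 + 1 = n + 2 from rfl, hrec n]
      field_simp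
    have e2 : (W (n + 1) / W n) ^ (-k) * (η * Kp k W K₀ n) + η = η * Kp k W K₀ (n + 1) := by
      simp only [Kp]
      ring
    have e3 : τ * (mult k (W (n + 1) / W n) * (c₀ * τ ^ n *
        Complex.exp (Real.pi * k / 2 * Complex.I) ^ n * ((W n ^ (-k) : ℝ) : ℂ))) =
        c₀ * τ ^ (n + 1) * Complex.exp (Real.pi * k / 2 * Complex.I) ^ (n + 1) *
          ((W (n + 1) ^ (-k) : ℝ) : ℂ) := by
      rw [mult_pos hy, Real.div_rpow hn1.le hn.le]
      have hWn : ((W n ^ (-k) : ℝ) : ℂ) ≠ 0 := by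
        exact_mod_cast (Real.rpow_pos_of_pos hn _).ne'
      push_cast [Complex.ofReal_div] at hWn ⊢
      field_simp
      ring
    rw [e1, norm_mult_pos hy, e2, e3] at h3
    exact h3

end Pool.Agent.Lib.MP_adb5ad_gt.Hk
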